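import Pool.Agent.Helper61.REC.DATa
import Pool.Agent.Helper98.REC.OVP

set_option autoImplicit false

/-! REC, module DAT, part b: openness, residue fields, exponents. -/

open scoped Classical
open NumberField Polynomial

namespace Pool.Agent.Helper61.REC

open _root_.REC
open Pool.Agent.Helper13.ZL (Pl q)
open MU

/-- a stable lattice in a continuous representation is continuous -/
theorem eqvQ_cont {G : Type} [Group G] [TopologicalSpace G] [IsTopologicalGroup G] {n l : ℕ}
    [Fact l.Prime] {r s : G →* Matrix.GeneralLinearGroup (Fin n) ℤ_[l]} (h : EqvQ r s)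
    (hr : Continuous r) : Continuous s := by
  obtain ⟨u, hu⟩ := eqvQ_conj h
  have h1 : Continuous fun g => (s g : Matrix (Fin n) (Fin n) ℤ_[l]) := by
    refine continuous_matrix fun i j => ?_
    have h2 : Continuous fun g => (((s g : Matrix (Fin n) (Fin n) ℤ_[l]) i j : ℤ_[l]) : ℚ_[l]) := by
      have h3 : (fun g => (((s g : Matrix (Fin n) (Fin n) ℤ_[l]) i j : ℤ_[l]) : ℚ_[l])) =
          fun g => ((u : Matrix (Fin n) (Fin n) ℚ_[l]) * rat r g *
            ((u⁻¹ : Matrix.GeneralLinearGroup (Fin n) ℚ_[l]) : Matrix (Fin n) (Fin n) ℚ_[l])) i j := by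
        funext g
        rw [← hu g]
        rfl
      rw [h3]
      have h4 : Continuous fun g => rat r g := by
        refine continuous_matrix fun i j => ?_
        have h5 : Continuous fun g => (r g : Matrix (Fin n) (Fin n) ℤ_[l]) :=
          Units.continuous_val.comp hr
        exact continuous_subtype_val.comp ((continuous_apply_apply i j).comp h5)
      have h6 : Continuous fun g => ((u : Matrix (Fin n) (Fin n) ℚ_[l]) * rat r g *
            ((u⁻¹ : Matrix.GeneralLinearGroup (Fin n) ℚ_[l]) : Matrix (Fin n) (Fin n) ℚ_[l])) :=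
        (continuous_const.matrix_mul h4).matrix_mul continuous_const
      exact (continuous_apply_apply i j).comp h6
    exact continuous_induced_rng.2 h2
  rw [Units.continuous_iff]
  refine ⟨h1, ?_⟩
  have h2 : (fun g => (((s g)⁻¹ : Matrix.GeneralLinearGroup (Fin n) ℤ_[l]) :
      Matrix (Fin n) (Fin n) ℤ_[l])) = (fun g => (s g : Matrix (Fin n) (Fin n) ℤ_[l])) ∘
        fun g => g⁻¹ := by
    funext g
    simp only [Function.comp, map_inv]
  rw [h2]
  exact h1.comp continuous_inv

/-- subgroups containing the elements which are trivial modulo `l` are open -/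
theorem open_of_res {G : Type} [Group G] [TopologicalSpace G] [IsTopologicalGroup G] {n l : ℕ}
    [Fact l.Prime] {s : G →* Matrix.GeneralLinearGroup (Fin n) ℤ_[l]} (hs : Continuous s)
    (H : Subgroup G) (hH : ∀ g, res s g = 1 → g ∈ H) : IsOpen (H : Set G) := by
  obtain ⟨H₀, hH₀, hm⟩ := gl_open s hs 1
  refine Subgroup.isOpen_mono ?_ hH₀
  intro g hg
  refine hH g ?_
  have h1 := (hm g).1 hg
  ext i j
  have h2 : (s g : Matrix (Fin n) (Fin n) ℤ_[l]) i j - (1 : Matrix (Fin n) (Fin n) ℤ_[l]) i j ∈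
      RingHom.ker (PadicInt.toZMod (p := l)) := by
    rw [PadicInt.ker_toZMod, PadicInt.maximalIdeal_eq_span_p, Ideal.mem_span_singleton]
    have := h1 i j
    rwa [pow_one, Matrix.sub_apply] at this
  rw [RingHom.mem_ker, map_sub, sub_eq_zero] at h2
  rw [res_coe, Matrix.map_apply, h2, Matrix.one_apply, Matrix.one_apply]
  split_ifs <;> simp

/-- the ranks of the reductions of `Ψ` and `X`, `Ψ X = l` -/
theorem rank_red {n l : ℕ} [Fact l.Prime] (Ψ X : Matrix (Fin n) (Fin n) ℤ_[l])
    (h : Ψ * X = (l : ℤ_[l]) • (1 : Matrix (Fin n) (Fin n) ℤ_[l])) :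
    (Ψ.map (PadicInt.toZMod (p := l))) * (X.map (PadicInt.toZMod (p := l))) = 0 ∧
    (Ψ.map (PadicInt.toZMod (p := l))).rank + (X.map (PadicInt.toZMod (p := l))).rank = n := by
  have hl : (l : ℤ_[l]) ≠ 0 := by
    exact_mod_cast (Fact.out : l.Prime).ne_zero
  have h0 : (Ψ.map (PadicInt.toZMod (p := l))) * (X.map (PadicInt.toZMod (p := l))) = 0 := by
    rw [← Matrix.map_mul, h]
    ext i j
    simp
  refine ⟨h0, ?_⟩
  have h1 : LinearMap.range (X.map (PadicInt.toZMod (p := l))).mulVecLin =
      LinearMap.ker (Ψ.map (PadicInt.toZMod (p := l))).mulVecLin := by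
    apply le_antisymm
    · rintro _ ⟨v, rfl⟩
      rw [LinearMap.mem_ker, Matrix.mulVecLin_apply, Matrix.mulVecLin_apply, Matrix.mulVec_mulVec,
        h0, Matrix.zero_mulVec]
    · intro a ha
      rw [LinearMap.mem_ker, Matrix.mulVecLin_apply] at ha
      have hsur : Function.Surjective (PadicInt.toZMod (p := l)) :=
        ZMod.ringHom_surjective _
      choose b hb using fun i => hsur (a i)
      have h2 : ∀ i, ∃ c : ℤ_[l], Ψ.mulVec b i = l * c := by
        intro i
        have h3 : Ψ.mulVec b i ∈ RingHom.ker (PadicInt.toZMod (p := l)) := by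
          rw [RingHom.mem_ker, RingHom.map_mulVec]
          have h4 : (PadicInt.toZMod (p := l)) ∘ b = a := funext hb
          rw [h4, ha]
          rfl
        rw [PadicInt.ker_toZMod, PadicInt.maximalIdeal_eq_span_p, Ideal.mem_span_singleton] at h3
        exact h3
      choose c hc using h2
      have h5 : X * Ψ = (l : ℤ_[l]) • (1 : Matrix (Fin n) (Fin n) ℤ_[l]) := by
        have hinj : Function.Injective
            ((algebraMap ℤ_[l] ℚ_[l]).mapMatrix (m := Fin n)) :=
          Matrix.map_injective (IsFractionRing.injective ℤ_[l] ℚ_[l])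
        apply hinj
        have h6 := congrArg ((algebraMap ℤ_[l] ℚ_[l]).mapMatrix (m := Fin n)) h
        have h7 : ((algebraMap ℤ_[l] ℚ_[l]).mapMatrix (m := Fin n))
            ((l : ℤ_[l]) • (1 : Matrix (Fin n) (Fin n) ℤ_[l])) =
            (l : ℚ_[l]) • (1 : Matrix (Fin n) (Fin n) ℚ_[l]) := by
          ext i j
          simp only [RingHom.mapMatrix_apply, Matrix.map_apply, Matrix.smul_apply,
            Matrix.one_apply, smul_eq_mul, map_mul, map_natCast]
          split_ifs <;> simp
        rw [h7, map_mul] at h6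
        rw [h7, map_mul]
        have hl' : (l : ℚ_[l]) ≠ 0 := by
          exact_mod_cast (Fact.out : l.Prime).ne_zero
        have h8 : ((algebraMap ℤ_[l] ℚ_[l]).mapMatrix (m := Fin n)) Ψ *
            ((l : ℚ_[l])⁻¹ • ((algebraMap ℤ_[l] ℚ_[l]).mapMatrix (m := Fin n)) X) = 1 := by
          rw [Matrix.mul_smul, h6, smul_smul, inv_mul_cancel₀ hl', one_smul]
        have h9 := mul_eq_one_comm.1 h8
        rw [Matrix.smul_mul] at h9
        have h10 := congrArg (fun z => (l : ℚ_[l]) • z) h9
        simp only [smul_smul, mul_inv_cancel₀ hl', one_smul] at h10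
        exact h10
      refine ⟨fun i => PadicInt.toZMod (c i), ?_⟩
      rw [Matrix.mulVecLin_apply]
      funext i
      have h6 : X.mulVec c = b := by
        have h7 : X.mulVec (Ψ.mulVec b) = (l : ℤ_[l]) • b := by
          rw [Matrix.mulVec_mulVec, h5, Matrix.smul_mulVec, Matrix.one_mulVec]
        have h8 : Ψ.mulVec b = (l : ℤ_[l]) • c := by
          funext i
          rw [hc i]
          rfl
        rw [h8, Matrix.mulVec_smul] at h7
        funext i
        have h9 := congrFun h7 i
        exact mul_left_cancel₀ hl h9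
      have h7 : (PadicInt.toZMod (p := l)) (X.mulVec c i) = _ := RingHom.map_mulVec _ X c i
      rw [h6, hb i] at h7
      rw [h7]
      rfl
  have h2 := LinearMap.finrank_range_add_finrank_ker (Ψ.map (PadicInt.toZMod (p := l))).mulVecLin
  rw [Module.finrank_fin_fun] at h2
  rw [← h1] at h2
  exact h2

/-- a field `k` -/
theorem exists_fld (F : Type) [Field F] [NumberField F] (l : ℕ) [Fact l.Prime] :
    ∃ (k : Type) (_ : Field k) (_ : IsAlgClosed k) (_ : ZMod l →+* k)
      (ι : 𝓞 (AlgebraicClosure F) →+* k), ι (l : 𝓞 (AlgebraicClosure F)) = 0 := by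
  have hl : l.Prime := Fact.out
  have hlp : Prime (l : ℤ) := Nat.prime_iff_prime_int.1 hl
  have hsp : (Ideal.span {(l : ℤ)}).IsPrime := (Ideal.span_singleton_prime hlp.ne_zero).2 hlp
  obtain ⟨P, hP, hPm⟩ := Ideal.exists_ideal_over_prime_of_isIntegral_of_isDomain
      (S := 𝓞 (AlgebraicClosure F)) (Ideal.span {(l : ℤ)}) (by
        rw [(RingHom.injective_iff_ker_eq_bot _).1
          (FaithfulSMul.algebraMap_injective ℤ (𝓞 (AlgebraicClosure F)))]
        exact bot_le)
  have hlP : (l : 𝓞 (AlgebraicClosure F)) ∈ P := by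
    have h1 : (l : ℤ) ∈ P.comap (algebraMap ℤ (𝓞 (AlgebraicClosure F))) := by
      rw [hPm]
      exact Ideal.mem_span_singleton_self _
    rw [Ideal.mem_comap] at h1
    simpa using h1
  let k₀ := FractionRing (𝓞 (AlgebraicClosure F) ⧸ P)
  let k := AlgebraicClosure k₀
  let ι : 𝓞 (AlgebraicClosure F) →+* k := ((algebraMap k₀ k).comp
    (algebraMap (𝓞 (AlgebraicClosure F) ⧸ P) k₀)).comp (Ideal.Quotient.mk P)
  have hι : ι (l : 𝓞 (AlgebraicClosure F)) = 0 := by
    have h1 : Ideal.Quotient.mk P (l : 𝓞 (AlgebraicClosure F)) = 0 :=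
      Ideal.Quotient.eq_zero_iff_mem.2 hlP
    rw [RingHom.comp_apply, h1, map_zero]
  have hlk : (l : k) = 0 := by
    rw [← map_natCast ι, hι]
  have hch : CharP k l := by
    obtain ⟨p, hp⟩ := CharP.exists k
    have h1 : p ∣ l := (CharP.cast_eq_zero_iff k p l).1 hlk
    rcases (Nat.dvd_prime hl).1 h1 with h2 | h2
    · subst h2
      exact absurd (CharP.cast_eq_zero k 1) (by rw [Nat.cast_one]; exact one_ne_zero)
    · rw [← h2]
      exact hp
  exact ⟨k, inferInstance, inferInstance, ZMod.castHom (dvd_refl l) k, ι, hι⟩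

/-! ### Products of conjugates -/

section

variable {F : Type} [Field F] [NumberField F] {k : Type} [Field k]

theorem tmp_add (ι : 𝓞 (AlgebraicClosure F) →+* k) (v : Pl F)
    (e e' : (F →+* AlgebraicClosure F) → ℕ) (u : 𝓞 F) :
    tmp ι v (fun τ => e τ + e' τ) u = tmp ι v e u * tmp ι v e' u := by
  unfold tmp
  rw [← Finset.prod_mul_distrib]
  refine Finset.prod_congr rfl fun τ _ => ?_
  split_ifs
  · rw [pow_add]
  · rw [one_mul]

theorem tmp_congr (ι : 𝓞 (AlgebraicClosure F) →+* k) (v : Pl F)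
    (e e' : (F →+* AlgebraicClosure F) → ℕ) (u : 𝓞 F)
    (h : ∀ τ, RingHom.ker (ι.comp (RingOfIntegers.mapRingHom τ)) = v.asIdeal → e τ = e' τ) :
    tmp ι v e u = tmp ι v e' u := by
  unfold tmp
  refine Finset.prod_congr rfl fun τ _ => ?_
  split_ifs with h1
  · rw [h τ h1]
  · rfl

/-- the place of an embedding -/
theorem plOf (ι : 𝓞 (AlgebraicClosure F) →+* k) (l : ℕ) [Fact l.Prime]
    (hι : ι (l : 𝓞 (AlgebraicClosure F)) = 0) (τ : F →+* AlgebraicClosure F) :
    ∃ v : Pl F, RingHom.ker (ι.comp (RingOfIntegers.mapRingHom τ)) = v.asIdeal ∧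
      (l : 𝓞 F) ∈ v.asIdeal := by
  have h1 : (l : 𝓞 F) ∈ RingHom.ker (ι.comp (RingOfIntegers.mapRingHom τ)) := by
    rw [RingHom.mem_ker, RingHom.comp_apply, map_natCast, hι]
  refine ⟨⟨RingHom.ker (ι.comp (RingOfIntegers.mapRingHom τ)), RingHom.ker_isPrime _, ?_⟩, rfl, h1⟩
  intro h0
  rw [h0, Ideal.mem_bot] at h1
  exact (Fact.out : l.Prime).ne_zero (by exact_mod_cast h1)

end

/-- the Hodge types sum to `3 w / 2` -/
theorem sum_types {w : ℕ} {h : Fin 3 → ℕ} (hinj : Function.Injective h)
    (hw : ∀ i, ∃ j, h i + h j = w) : 2 * ∑ i, h i = 3 * w := by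
  choose f hf using hw
  have hfi : Function.Injective f := by
    intro i i' hii
    have h1 := hf i
    have h2 := hf i'
    rw [hii] at h1
    exact hinj (by omega)
  have hfb : Function.Bijective f := Finite.injective_iff_bijective.1 hfi
  have h1 : ∑ i, h (f i) = ∑ i, h i := Fintype.sum_bijective f hfb _ _ fun i => rfl
  have h2 : ∑ i, (h i + h (f i)) = 3 * w := by
    rw [Finset.sum_congr rfl fun i _ => hf i, Finset.sum_const, Finset.card_univ, Fintype.card_fin,
      smul_eq_mul]
  rw [Finset.sum_add_distrib, h1] at h2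
  omega

end Pool.Agent.Helper61.REC
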