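import Pool.Agent.Helper57.REC.Stmts1

set_option autoImplicit false

/-! REC, module EV: the multiplicative extension of a function on the places. -/

open scoped Classical
open NumberField UniqueFactorizationMonoid

namespace Pool.Agent.Helper61.REC

open _root_.REC
open Pool.Agent.Helper13.ZL (Pl q)

variable {F : Type} [Field F] [NumberField F]

/-- the value at a prime factor -/
noncomputable def evl {A : Type} [CommMonoid A] (f : Pl F → A) (P : Ideal (𝓞 F)) : A :=
  if h : P.IsPrime ∧ P ≠ ⊥ then f ⟨P, h.1, h.2⟩ else 1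

theorem ev_eq {A : Type} [CommMonoid A] (f : Pl F → A) (I : Ideal (𝓞 F)) :
    ev f I = ((normalizedFactors I).map (evl f)).prod := rfl

theorem evl_pl {A : Type} [CommMonoid A] (f : Pl F → A) (v : Pl F) : evl f v.asIdeal = f v := by
  unfold evl
  rw [dif_pos ⟨v.isPrime, v.ne_bot⟩]

theorem nf_isPrime {I P : Ideal (𝓞 F)} (hP : P ∈ normalizedFactors I) :
    P.IsPrime ∧ P ≠ ⊥ ∧ I ≤ P := by
  have h1 := prime_of_normalized_factor P hP
  exact ⟨Ideal.isPrime_of_prime h1, h1.ne_zero, Ideal.dvd_iff_le.1 (dvd_of_mem_normalizedFactors hP)⟩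

theorem st_EV : ST_EV := by
  intro F _ _ A _
  refine ⟨?_, ?_, ?_, ?_, ?_, ?_, ?_⟩
  · intro f
    rw [ev_eq, ← Ideal.one_eq_top, normalizedFactors_one]
    simp
  · intro f I J hI hJ
    rw [ev_eq, ev_eq, ev_eq, normalizedFactors_mul hI hJ, Multiset.map_add, Multiset.prod_add]
  · intro f v
    rw [ev_eq, normalizedFactors_irreducible v.irreducible, normalize_eq, Multiset.map_singleton,
      Multiset.prod_singleton, evl_pl]
  · intro f g I
    rw [ev_eq, ev_eq, ev_eq, ← Multiset.prod_map_mul]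
    congr 1
    refine Multiset.map_congr rfl fun P hP => ?_
    obtain ⟨h1, h2, -⟩ := nf_isPrime hP
    unfold evl
    rw [dif_pos ⟨h1, h2⟩, dif_pos ⟨h1, h2⟩, dif_pos ⟨h1, h2⟩]
  · intro f g I h
    rw [ev_eq, ev_eq]
    congr 1
    refine Multiset.map_congr rfl fun P hP => ?_
    obtain ⟨h1, h2, h3⟩ := nf_isPrime hP
    unfold evl
    rw [dif_pos ⟨h1, h2⟩, dif_pos ⟨h1, h2⟩]
    exact h ⟨P, h1, h2⟩ h3
  · intro A' _ φ f I
    rw [ev_eq, ev_eq, map_multiset_prod, Multiset.map_map]
    congr 1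
    refine Multiset.map_congr rfl fun P hP => ?_
    obtain ⟨h1, h2, -⟩ := nf_isPrime hP
    simp only [Function.comp, evl]
    rw [dif_pos ⟨h1, h2⟩, dif_pos ⟨h1, h2⟩]
  · intro I hI
    rw [ev_eq]
    conv_rhs => rw [← Ideal.prod_normalizedFactors_eq_self hI, map_multiset_prod]
    congr 1
    refine Multiset.map_congr rfl fun P hP => ?_
    obtain ⟨h1, h2, -⟩ := nf_isPrime hP
    unfold evl
    rw [dif_pos ⟨h1, h2⟩]
    rfl

end Pool.Agent.Helper61.REC
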