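import Pool.Agent.Helper57.REC.Stmts4
import Pool.Agent.Helper84.MU.CYC
import Pool.Agent.Helper98.REC.OVP
import Pool.Agent.Helper61.REC.EV
import Pool.Agent.Helper81.AbMot.Inrt

set_option autoImplicit false

/-! REC, module CYP: cyclotomic characters. -/

open scoped Classical
open NumberField

namespace Pool.Agent.Helper61.REC

open _root_.REC
open Pool.Agent.Helper13.ZL (Pl q)
open MU (Gal Zb Over CongPow cyc)

section

variable {F : Type} [Field F] [NumberField F]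

theorem cyp_val (m : ℕ) [Fact m.Prime] (x : ℤ_[m]) :
    (PadicInt.toZModPow 1 x).val = (PadicInt.toZMod x).val := by
  rw [PadicInt.val_toZMod_eq_zmodRepr]
  have h1 : x - (x.zmodRepr : ℤ_[m]) ∈ RingHom.ker (PadicInt.toZModPow (p := m) 1) := by
    rw [PadicInt.ker_toZModPow, pow_one, ← PadicInt.maximalIdeal_eq_span_p]
    exact PadicInt.sub_zmodRepr_mem x
  rw [RingHom.mem_ker, map_sub, map_natCast, sub_eq_zero] at h1
  rw [h1, ZMod.val_natCast, pow_one]
  exact Nat.mod_eq_of_lt (PadicInt.zmodRepr_lt_p x)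

theorem cyp_spec (m : ℕ) [Fact m.Prime] (σ : Gal F) (ζ : AlgebraicClosure F) (hζ : ζ ^ m = 1) :
    σ ζ = ζ ^ ((cm F m σ : ZMod m).val) := by
  have h := cyclotomicCharacter.spec m (n := 1) ((MulSemiringAction.toRingAut
      (Gal F) (AlgebraicClosure F)) σ) ζ (by rw [pow_one]; exact hζ)
  rw [cyp_val] at h
  exact h

theorem cyp_one (m : ℕ) [Fact m.Prime] (σ : Gal F) (ζ : AlgebraicClosure F)
    (hζ : IsPrimitiveRoot ζ m) (h : σ ζ = ζ) : cm F m σ = 1 := by
  have hm : m.Prime := Fact.out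
  rw [cyp_spec m σ ζ hζ.pow_eq_one] at h
  have h1 : ζ ^ (cm F m σ : ZMod m).val = ζ ^ 1 := by rw [h, pow_one]
  have h2 := hζ.pow_inj (ZMod.val_lt _) hm.one_lt h1
  apply Units.ext
  rw [Units.val_one, ← ZMod.natCast_zmod_val (cm F m σ : ZMod m), h2, Nat.cast_one]

theorem cyp_open (m : ℕ) [Fact m.Prime] : IsOpen ((cm F m).ker : Set (Gal F)) := by
  have hm : m.Prime := Fact.out
  have : NeZero m := ⟨hm.ne_zero⟩
  obtain ⟨ζ, hζ⟩ := HasEnoughRootsOfUnity.exists_primitiveRoot (AlgebraicClosure F) m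
  let K : IntermediateField F (AlgebraicClosure F) := IntermediateField.adjoin F {ζ}
  have hfd : FiniteDimensional F K :=
    IntermediateField.adjoin.finiteDimensional (Algebra.IsIntegral.isIntegral ζ)
  refine Subgroup.isOpen_mono ?_ (K.fixingSubgroup_isOpen)
  intro σ hσ
  rw [MonoidHom.mem_ker]
  refine cyp_one m σ ζ hζ ?_
  exact (IntermediateField.mem_fixingSubgroup_iff K σ).1 hσ ζ
    (IntermediateField.mem_adjoin_simple_self F ζ)

theorem cyp_cop (m : ℕ) [Fact m.Prime] (v : Pl F) (hv : (m : 𝓞 F) ∉ v.asIdeal) :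
    Nat.Coprime (q v) m := by
  have hm : m.Prime := Fact.out
  obtain ⟨p, f, hp, hf, hq, hpv, -⟩ := ovp_res v
  rw [hq]
  refine Nat.Coprime.pow_left _ ((Nat.coprime_primes hp hm).2 ?_)
  rintro rfl
  exact hv hpv

theorem cyp_frob (m : ℕ) [Fact m.Prime] (v : Pl F) (hv : (m : 𝓞 F) ∉ v.asIdeal)
    (u : (ZMod m)ˣ) (hu : (u : ZMod m) = q v) : IsFr (cm F m) v u := by
  intro 𝔓 h𝔓 j σ hσ
  obtain ⟨p, f, hp, hf, hq, hO, hpv⟩ := (st_OVP F).2.2.2.1 v 𝔓 h𝔓
  have hpm : p ≠ m := by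
    rintro rfl
    exact hv hpv
  rw [hq, ← pow_mul] at hσ
  have h1 := MU.st_CYC F F m p hp hpm 𝔓 hO (f * j) σ hσ
  apply Units.ext
  have h2 : (cm F m σ : ZMod m) = PadicInt.toZMod ((cyc m F σ : ℤ_[m]ˣ) : ℤ_[m]) := rfl
  rw [h2, h1, map_pow, map_natCast, Units.val_pow_eq_pow_val, hu, hq, Nat.cast_pow, ← pow_mul]

theorem cyp_inert (m : ℕ) [Fact m.Prime] (hmD : ¬ (m : ℤ) ∣ discr F) (u : (ZMod m)ˣ) :
    ∃ (τ : Gal F) (P : Ideal (𝓞 (AlgebraicClosure F))), P.IsPrime ∧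
      (m : 𝓞 (AlgebraicClosure F)) ∈ P ∧
      (∀ y : 𝓞 (AlgebraicClosure F), τ • y - y ∈ P) ∧ cm F m τ = u := by
  have hm : m.Prime := Fact.out
  have hne : NeZero m := ⟨hm.ne_zero⟩
  obtain ⟨ζ, hζ⟩ := HasEnoughRootsOfUnity.exists_primitiveRoot (AlgebraicClosure F) m
  let K : IntermediateField F (AlgebraicClosure F) := IntermediateField.adjoin F {ζ}
  have hfd : FiniteDimensional F K :=
    IntermediateField.adjoin.finiteDimensional (Algebra.IsIntegral.isIntegral ζ)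
  have hNF : NumberField K := NumberField.of_module_finite F K
  have hcyc : IsCyclotomicExtension {m} F K := hζ.intermediateField_adjoin_isCyclotomicExtension F
  have hgal : IsGalois F K := IsCyclotomicExtension.isGalois {m} F K
  have hgal2 : IsGalois K (AlgebraicClosure F) := IsGalois.tower_top_intermediateField K
  let ζK : K := ⟨ζ, IntermediateField.mem_adjoin_simple_self F ζ⟩
  have hζK : IsPrimitiveRoot ζK m :=
    IsPrimitiveRoot.of_map_of_injective (f := algebraMap K (AlgebraicClosure F)) hζ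
      (algebraMap K (AlgebraicClosure F)).injective
  let K0 : IntermediateField ℚ K := IntermediateField.adjoin ℚ {ζK}
  have hcyc0 : IsCyclotomicExtension {m} ℚ K0 :=
    hζK.intermediateField_adjoin_isCyclotomicExtension ℚ
  -- a prime over `m`
  have hmp : Prime (m : ℤ) := Nat.prime_iff_prime_int.1 hm
  obtain ⟨Q, hQ, hmQ⟩ : ∃ Q : Ideal (𝓞 K), Q.IsMaximal ∧ (m : 𝓞 K) ∈ Q := by
    have h1 : Ideal.span {(m : 𝓞 K)} ≠ ⊤ := by
      intro h
      rw [Ideal.span_singleton_eq_top] at h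
      have h2 := h.map (Algebra.norm ℤ : 𝓞 K →* ℤ)
      have h3 : Algebra.norm ℤ (m : 𝓞 K) = (m : ℤ) ^ Module.finrank ℤ (𝓞 K) := by
        have := Algebra.norm_algebraMap (S := 𝓞 K) (m : ℤ)
        rwa [map_natCast] at this
      rw [h3] at h2
      have h4 : 0 < Module.finrank ℤ (𝓞 K) := by
        rw [RingOfIntegers.rank]
        exact Module.finrank_pos
      exact hmp.not_isUnit (isUnit_of_dvd_unit (dvd_pow_self _ h4.ne') h2)
    obtain ⟨Q, hQ, hle⟩ := Ideal.exists_le_maximal _ h1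
    exact ⟨Q, hQ, hle (Ideal.mem_span_singleton_self _)⟩
  have hQp : Q.IsPrime := hQ.isPrime
  have hG : IsGaloisGroup (K ≃ₐ[F] K) (𝓞 F) (𝓞 K) :=
    IsGaloisGroup.of_isFractionRing (K ≃ₐ[F] K) (𝓞 F) (𝓞 K) F K
  have hmF : (m : 𝓞 F) ∈ Q.under (𝓞 F) := by
    rw [Ideal.under_def, Ideal.mem_comap, map_natCast]
    exact hmQ
  have hmK0 : (m : 𝓞 K0) ∈ Q.under (𝓞 K0) := by
    rw [Ideal.under_def, Ideal.mem_comap, map_natCast]
    exact hmQ
  have hun : Algebra.IsUnramifiedAt ℤ (Q.under (𝓞 F)) :=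
    (NumberField.not_dvd_discr_iff_forall_mem F (𝓞 F) hmp).1 hmD _ inferInstance
      (by exact_mod_cast hmF)
  have he1 : (Q.under (𝓞 F)).ramificationIdx ℤ = 1 := Ideal.ramificationIdx_eq_one _ _
  have hlo : (Q.under (𝓞 K0)).LiesOver (Ideal.span {(m : ℤ)}) := by
    refine (Ideal.liesOver_span_iff (Ideal.IsPrime.ne_top inferInstance) hmp).2 ?_
    exact_mod_cast hmK0
  have he2 : (Q.under (𝓞 K0)).ramificationIdx ℤ = m - 1 :=
    IsCyclotomicExtension.Rat.ramificationIdx_eq_of_prime m K0 (Q.under (𝓞 K0))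
  have he3 := Ideal.ramificationIdx_tower (R := ℤ) (Q.under (𝓞 F)) Q
  have he4 := Ideal.ramificationIdx_tower (R := ℤ) (Q.under (𝓞 K0)) Q
  have he5 : Nat.card (Q.inertia (K ≃ₐ[F] K)) = Q.ramificationIdx (𝓞 F) := by
    rw [← Ideal.ramificationIdxIn_eq_ramificationIdx (Q.under (𝓞 F)) Q (K ≃ₐ[F] K),
      ← Ideal.card_inertia_eq_ramificationIdxIn (G := (K ≃ₐ[F] K)) (Q.under (𝓞 F)) Q]
  have hcard : m - 1 ≤ Nat.card (Q.inertia (K ≃ₐ[F] K)) := by
    refine Nat.le_of_dvd Nat.card_pos ?_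
    rw [he1, one_mul, he4, he2] at he3
    rw [he5, ← he3]
    exact dvd_mul_right _ _
  let f : Q.inertia (K ≃ₐ[F] K) → (ZMod m)ˣ := fun σ => hζK.autToPow F σ.1
  have hf : Function.Injective f := fun a b h =>
    Subtype.ext (hζK.autToPow_injective (K := F) h)
  have hbij : Function.Bijective f := by
    refine (Nat.bijective_iff_injective_and_card f).2 ⟨hf, ?_⟩
    have h1 := Nat.card_le_card_of_injective f hf
    have h2 : Nat.card (ZMod m)ˣ = m - 1 := by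
      rw [Nat.card_eq_fintype_card, ZMod.card_units]
    omega
  obtain ⟨⟨σ, hσ⟩, hσu⟩ := hbij.2 u
  obtain ⟨τ, P, hP, hPQ, hτ, hτP⟩ := AbMot.in_lift (F := F) (K := K) (Ω := AlgebraicClosure F) Q σ
    (fun x => hσ x)
  refine ⟨τ, P, hP, ?_, hτP, ?_⟩
  · have h1 : (m : 𝓞 K) ∈ P.comap (algebraMap (𝓞 K) (𝓞 (AlgebraicClosure F))) := by
      rw [hPQ]; exact hmQ
    rw [Ideal.mem_comap, map_natCast] at h1
    exact h1
  · have h1 : ζK ^ (u : ZMod m).val = σ ζK := by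
      rw [← hσu]
      exact hζK.autToPow_spec F σ
    have h2 : τ ζ = ζ ^ (u : ZMod m).val := by
      have h3 := hτ ζK
      rw [← h1, map_pow] at h3
      exact h3
    rw [cyp_spec m τ ζ hζ.pow_eq_one] at h2
    have h3 := hζ.pow_inj (ZMod.val_lt _) (ZMod.val_lt _) h2
    exact Units.ext (ZMod.val_injective m h3)

/-- the norm of a totally positive element is positive -/
theorem norm_pos_of_totPos (x : F) (hx : x ≠ 0) (h : TotPos x) : 0 < Algebra.norm ℚ x := by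
  have hne : ∀ σ : F →ₐ[ℚ] ℂ, σ x ≠ 0 := fun σ => by
    rw [Ne, map_eq_zero]
    exact hx
  have h1 : ((Algebra.norm ℚ x : ℚ) : ℂ) = ∏ σ : F →ₐ[ℚ] ℂ, σ x :=
    Algebra.norm_eq_prod_embeddings ℚ ℂ x
  let c : (F →ₐ[ℚ] ℂ) → (F →ₐ[ℚ] ℂ) := fun σ =>
    (Complex.conjAe.restrictScalars ℚ : ℂ →ₐ[ℚ] ℂ).comp σ
  have hc : ∀ σ y, c σ y = (starRingEnd ℂ) (σ y) := fun σ y => rfl
  have h2 : ∏ σ : F →ₐ[ℚ] ℂ, (σ x / (‖σ x‖ : ℂ)) = 1 := by
    refine Finset.prod_involution (fun σ _ => c σ) ?_ ?_ (fun _ _ => Finset.mem_univ _) ?_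
    · intro σ _
      have h3 : (‖σ x‖ : ℂ) ≠ 0 := by
        exact_mod_cast (norm_ne_zero_iff.2 (hne σ))
      rw [hc, RCLike.norm_conj, div_mul_div_comm, Complex.mul_conj, Complex.normSq_eq_norm_sq]
      field_simp
      push_cast
      ring
    · intro σ _ h3 h4
      apply h3
      have hre : ∀ y, (starRingEnd ℂ) (σ y) = σ y := fun y => by
        rw [← hc, h4]
      have hreal : ComplexEmbedding.IsReal (σ : F →+* ℂ) := by
        ext y
        exact hre y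
      have h5 := h hreal.embedding
      have h6 : ((hreal.embedding x : ℝ) : ℂ) = σ x :=
        ComplexEmbedding.IsReal.coe_embedding_apply hreal x
      rw [← h6, Complex.norm_real, Real.norm_of_nonneg h5.le]
      exact div_self (by exact_mod_cast h5.ne')
    · intro σ _
      ext y
      rw [hc, hc, Complex.conj_conj]
  have h3 : ∏ σ : F →ₐ[ℚ] ℂ, σ x = ((∏ σ : F →ₐ[ℚ] ℂ, ‖σ x‖ : ℝ) : ℂ) := by
    have h4 : ∏ σ : F →ₐ[ℚ] ℂ, σ x =
        (∏ σ : F →ₐ[ℚ] ℂ, (σ x / (‖σ x‖ : ℂ))) * ∏ σ : F →ₐ[ℚ] ℂ, (‖σ x‖ : ℂ) := by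
      rw [← Finset.prod_mul_distrib]
      refine Finset.prod_congr rfl fun σ _ => ?_
      rw [div_mul_cancel₀]
      exact_mod_cast (norm_ne_zero_iff.2 (hne σ))
    rw [h4, h2, one_mul]
    push_cast
    rfl
  rw [h3] at h1
  have h5 : ((Algebra.norm ℚ x : ℚ) : ℝ) = ∏ σ : F →ₐ[ℚ] ℂ, ‖σ x‖ := by
    apply Complex.ofReal_injective
    rw [← h1]
    simp
  have h6 : (0 : ℝ) < ((Algebra.norm ℚ x : ℚ) : ℝ) := by
    rw [h5]
    exact Finset.prod_pos fun σ _ => norm_pos_iff.2 (hne σ)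
  exact_mod_cast h6

/-- the norm of an element which is `1` modulo all places over `m` -/
theorem norm_mod (m : ℕ) [Fact m.Prime] (x : 𝓞 F)
    (h : ∀ v : Pl F, (m : 𝓞 F) ∈ v.asIdeal → x - 1 ∈ v.asIdeal) :
    (m : ℤ) ∣ Algebra.norm ℤ x - 1 := by
  have hm : m.Prime := Fact.out
  have hmp : Prime (m : ℤ) := Nat.prime_iff_prime_int.1 hm
  have hsp : (Ideal.span {(m : ℤ)}).IsPrime :=
    (Ideal.span_singleton_prime hmp.ne_zero).2 hmp
  obtain ⟨P, hP, hPm⟩ := Ideal.exists_ideal_over_prime_of_isIntegral_of_isDomain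
      (S := 𝓞 (AlgebraicClosure F)) (Ideal.span {(m : ℤ)}) (by
        rw [(RingHom.injective_iff_ker_eq_bot _).1
          (FaithfulSMul.algebraMap_injective ℤ (𝓞 (AlgebraicClosure F)))]
        exact bot_le)
  have hmem : ∀ z : ℤ, ((z : ℤ) : 𝓞 (AlgebraicClosure F)) ∈ P ↔ (m : ℤ) ∣ z := by
    intro z
    rw [← Ideal.mem_span_singleton, ← hPm, Ideal.mem_comap]
    simp
  rw [← hmem]
  have h1 : (((Algebra.norm ℤ x : ℤ)) : 𝓞 (AlgebraicClosure F)) =
      ∏ σ : F →ₐ[ℚ] AlgebraicClosure F, RingOfIntegers.mapRingHom (σ : F →+* AlgebraicClosure F) x := by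
    apply RingOfIntegers.ext
    have h2 := Algebra.norm_eq_prod_embeddings ℚ (AlgebraicClosure F) (x : F)
    rw [← Algebra.coe_norm_int] at h2
    have h3 : ((∏ σ : F →ₐ[ℚ] AlgebraicClosure F,
        RingOfIntegers.mapRingHom (σ : F →+* AlgebraicClosure F) x :
          𝓞 (AlgebraicClosure F)) : AlgebraicClosure F) =
        ∏ σ : F →ₐ[ℚ] AlgebraicClosure F, σ (x : F) :=
      map_prod (algebraMap (𝓞 (AlgebraicClosure F)) (AlgebraicClosure F)) _ _
    have h4 : (((Algebra.norm ℤ x : ℤ) : 𝓞 (AlgebraicClosure F)) : AlgebraicClosure F) =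
        ((Algebra.norm ℤ x : ℤ) : AlgebraicClosure F) :=
      map_intCast (algebraMap (𝓞 (AlgebraicClosure F)) (AlgebraicClosure F)) _
    rw [h3, h4, ← h2, map_intCast]
  rw [Int.cast_sub, Int.cast_one, ← Ideal.Quotient.eq, h1, map_prod, map_one]
  refine Finset.prod_eq_one fun σ _ => ?_
  rw [← map_one (Ideal.Quotient.mk P), Ideal.Quotient.eq]
  let φ : 𝓞 F →+* 𝓞 (AlgebraicClosure F) :=
    RingOfIntegers.mapRingHom (σ : F →+* AlgebraicClosure F)
  have hv : (P.comap φ).IsPrime := Ideal.comap_isPrime _ _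
  have hmv : (m : 𝓞 F) ∈ P.comap φ := by
    rw [Ideal.mem_comap, map_natCast]
    exact_mod_cast (hmem (m : ℤ)).2 dvd_rfl
  have hv0 : P.comap φ ≠ ⊥ := by
    intro h0
    rw [h0, Ideal.mem_bot] at hmv
    exact hm.ne_zero (by exact_mod_cast hmv)
  have h3 := h ⟨P.comap φ, hv, hv0⟩ hmv
  rw [Ideal.mem_comap, map_sub, map_one] at h3
  exact h3

end

theorem st_CYP : ST_CYP := by
  intro F _ _
  refine ⟨(discr F).natAbs, Int.natAbs_pos.2 (discr_ne_zero F), ?_⟩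
  intro m _ hmD lam
  have hm : m.Prime := Fact.out
  have hne : NeZero m := ⟨hm.ne_zero⟩
  have hmD' : ¬ (m : ℤ) ∣ discr F := fun h => hmD (by
    have := Int.natAbs_dvd_natAbs.2 h
    rwa [Int.natAbs_natCast] at this)
  have hfr : ∀ v : Pl F, (m : 𝓞 F) ∉ v.asIdeal → ∀ u : (ZMod m)ˣ, (u : ZMod m) = q v →
      IsFr (lam.comp (cm F m)) v (lam u) := by
    intro v hv u hu 𝔓 h𝔓 j σ hσ
    rw [MonoidHom.comp_apply, cyp_frob m v hv u hu 𝔓 h𝔓 j σ hσ, map_pow]
  refine ⟨?_, ?_, ?_, ?_⟩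
  · refine Subgroup.isOpen_mono ?_ (cyp_open (F := F) m)
    intro σ hσ
    rw [MonoidHom.mem_ker] at hσ ⊢
    rw [MonoidHom.comp_apply, hσ, map_one]
  · intro v hv
    have hu : ((ZMod.unitOfCoprime (q v) (cyp_cop m v hv) : (ZMod m)ˣ) : ZMod m) = q v :=
      ZMod.coe_unitOfCoprime _ _
    exact ⟨_, hu, hfr v hv _ hu⟩
  · intro A _ χ hχ hun u
    obtain ⟨τ, P, hP, hmP, hτP, hτu⟩ := cyp_inert m hmD' u
    refine ⟨τ, ?_, hτu⟩
    have hv : (P.under (𝓞 F)).IsPrime := Ideal.IsPrime.under (𝓞 F) P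
    have hmv : (m : 𝓞 F) ∈ P.under (𝓞 F) := by
      rw [Ideal.under_def, Ideal.mem_comap, map_natCast]
      exact hmP
    have hv0 : P.under (𝓞 F) ≠ ⊥ := by
      intro h0
      rw [h0, Ideal.mem_bot] at hmv
      exact hm.ne_zero (by exact_mod_cast hmv)
    refine hun ⟨P.under (𝓞 F), hv, hv0⟩ hmv P ((ovp_iff _ P).2 ⟨hP, rfl⟩) τ ?_
    have key : ∀ x y : 𝓞 (AlgebraicClosure F),
        (y : AlgebraicClosure F) = τ (x : AlgebraicClosure F) → y - x ^ 1 ∈ P := by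
      intro x y hxy
      have h1 : y = τ • x := RingOfIntegers.ext hxy
      rw [h1, pow_one]
      exact hτP x
    exact fun x y hxy => key x y hxy
  · intro B hB N hN φ hφ
    refine ⟨hφ.1, ?_⟩
    rintro x ⟨hx0, hxp, hxB⟩
    obtain ⟨-, -, -, -, hev5, hev6, hev7⟩ := st_EV F (ZMod m)
    have hI : Ideal.span {x} ≠ ⊥ := by
      rwa [Ne, Ideal.span_singleton_eq_bot]
    have hvB : ∀ v : Pl F, v ∈ B → x - 1 ∈ v.asIdeal := fun v hv =>
      Ideal.pow_le_self hN.ne' (hxB v hv)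
    have hnB : ∀ v : Pl F, Ideal.span {x} ≤ v.asIdeal → v ∉ B := by
      intro v hv hvb
      have h1 : x ∈ v.asIdeal := hv (Ideal.mem_span_singleton_self x)
      have h2 := v.asIdeal.sub_mem h1 (hvB v hvb)
      rw [sub_sub_cancel] at h2
      exact v.isPrime.ne_top ((Ideal.eq_top_iff_one _).2 h2)
    let hh : Pl F → (ZMod m)ˣ := fun v =>
      if hc : Nat.Coprime (q v) m then ZMod.unitOfCoprime (q v) hc else 1
    have hhv : ∀ v : Pl F, v ∉ B → (hh v : ZMod m) = q v := by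
      intro v hv
      have hc := cyp_cop m v (fun h => hv (hB v h))
      show ((if hc : Nat.Coprime (q v) m then ZMod.unitOfCoprime (q v) hc else 1 : (ZMod m)ˣ) :
        ZMod m) = q v
      rw [dif_pos hc]
      exact ZMod.coe_unitOfCoprime _ _
    have hφv : ∀ v : Pl F, v ∉ B → φ v = lam (hh v) := by
      intro v hv
      have h1 := hfr v (fun h => hv (hB v h)) (hh v) (hhv v hv)
      have h2 := hφ.2 v hv
      obtain ⟨𝔓, h𝔓⟩ := (st_OVP F).1 v
      obtain ⟨σ, hσ⟩ := (st_OVP F).2.1 v 𝔓 h𝔓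
      have hσ' : CongPow 𝔓 (q v ^ 1) σ := by rw [pow_one]; exact hσ
      have h3 := h1 𝔓 h𝔓 1 σ hσ'
      have h4 := h2 𝔓 h𝔓 1 σ hσ'
      rw [pow_one] at h3 h4
      rw [← h4, h3]
    have h1 : ev φ (Ideal.span {x}) = ev (fun v => lam (hh v)) (Ideal.span {x}) :=
      (st_EV F ℂˣ).2.2.2.2.1 _ _ _ fun v hv => hφv v (hnB v hv)
    have h2 : ev (fun v => lam (hh v)) (Ideal.span {x}) = lam (ev hh (Ideal.span {x})) :=
      (st_EV F (ZMod m)ˣ).2.2.2.2.2.1 ℂˣ lam hh _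
    have h3 : ((ev hh (Ideal.span {x}) : (ZMod m)ˣ) : ZMod m) = 1 := by
      have h4 : ev (fun v => (Units.coeHom (ZMod m)) (hh v)) (Ideal.span {x}) =
          (Units.coeHom (ZMod m)) (ev hh (Ideal.span {x})) :=
        (st_EV F (ZMod m)ˣ).2.2.2.2.2.1 (ZMod m) (Units.coeHom (ZMod m)) hh _
      have h5 : ev (fun v => (Units.coeHom (ZMod m)) (hh v)) (Ideal.span {x}) =
          ev (fun v => ((Nat.castRingHom (ZMod m) : ℕ →+* ZMod m) : ℕ →* ZMod m) (q v))
            (Ideal.span {x}) :=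
        hev5 _ _ _ fun v hv => hhv v (hnB v hv)
      have h6 : ev (fun v => ((Nat.castRingHom (ZMod m) : ℕ →+* ZMod m) : ℕ →* ZMod m) (q v))
            (Ideal.span {x}) = ((Nat.castRingHom (ZMod m) : ℕ →+* ZMod m) : ℕ →* ZMod m)
              (ev (fun v => q v) (Ideal.span {x})) :=
        (st_EV F ℕ).2.2.2.2.2.1 (ZMod m) _ _ _
      have h7 : ev (fun v => q v) (Ideal.span {x}) = Ideal.absNorm (Ideal.span {x}) :=
        (st_EV F ℕ).2.2.2.2.2.2 _ hI
      have h8 : ((ev hh (Ideal.span {x}) : (ZMod m)ˣ) : ZMod m) =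
          (Ideal.absNorm (Ideal.span {x}) : ZMod m) := by
        rw [← h7]
        exact h4.symm.trans (h5.trans h6)
      rw [h8, Ideal.absNorm_span_singleton]
      have h9 : 0 < Algebra.norm ℤ x := by
        have := norm_pos_of_totPos (x : F) (by exact_mod_cast hx0) hxp
        rw [← Algebra.coe_norm_int] at this
        exact_mod_cast this
      have h10 : (((Algebra.norm ℤ x).natAbs : ℕ) : ZMod m) = ((Algebra.norm ℤ x : ℤ) : ZMod m) := by
        rw [← Int.cast_natCast, Int.natAbs_of_nonneg h9.le]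
      have h11 := norm_mod m x (fun v hv => hvB v (hB v hv))
      rw [h10, ← sub_eq_zero, ← Int.cast_one, ← Int.cast_sub]
      exact (ZMod.intCast_zmod_eq_zero_iff_dvd _ m).2 h11
    have h12 : ev hh (Ideal.span {x}) = 1 := Units.ext (by rw [h3, Units.val_one])
    rw [h1, h2, h12, map_one]

end Pool.Agent.Helper61.REC
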