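import Pool.Agent.Helper57.REC.Stmts3

set_option autoImplicit false

/-! REC, module INFP: infinite places in Galois extensions. -/

open scoped Classical
open NumberField

namespace Pool.Agent.Helper61.REC

open _root_.REC

section

variable (F L : Type) [Field F] [NumberField F] [Field L] [NumberField L] [Algebra F L]
  [IsGalois F L]

theorem card_fib (u : InfinitePlace L) :
    Nat.card {u' : InfinitePlace L // u'.comap (algebraMap F L) = u.comap (algebraMap F L)} *
      Nat.card (MulAction.stabilizer (L ≃ₐ[F] L) u) = Module.finrank F L := by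
  have h1 : Nat.card {u' : InfinitePlace L //
      u'.comap (algebraMap F L) = u.comap (algebraMap F L)} =
      (MulAction.stabilizer (L ≃ₐ[F] L) u).index := by
    rw [MulAction.index_stabilizer, ← Nat.card_coe_set_eq]
    refine Nat.card_congr (Equiv.subtypeEquivRight fun u' => ?_)
    rw [InfinitePlace.mem_orbit_iff]
    exact eq_comm
  rw [h1, Subgroup.index_mul_card, ← IsGalois.card_aut_eq_finrank]

theorem nw_eq (u : InfinitePlace L) :
    nw L (u.comap (algebraMap F L)) = Nat.card (MulAction.stabilizer (L ≃ₐ[F] L) u) := by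
  have h := card_fib F L u
  have h0 : 0 < Module.finrank F L := Module.finrank_pos
  have h1 : 0 < Nat.card {u' : InfinitePlace L //
      u'.comap (algebraMap F L) = u.comap (algebraMap F L)} :=
    Nat.pos_of_ne_zero fun h2 => by rw [h2, zero_mul] at h; omega
  unfold nw
  rw [← h, Nat.mul_div_cancel_left _ h1]

theorem norm_pos (u : InfinitePlace L) (hu : InfinitePlace.IsRamified F u)
    (σ : F →+* ℝ) (hσ : ∀ x : F, ((σ x : ℝ) : ℂ) = u.embedding (algebraMap F L x))
    (x : L) (hx : x ≠ 0) : 0 < σ (Algebra.norm F x) := by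
  obtain ⟨c, hc⟩ := InfinitePlace.exists_isConj_of_isRamified (k := F) (φ := u.embedding)
    (by rwa [InfinitePlace.mk_embedding])
  have hc' : ∀ y : L, u.embedding (c y) = (starRingEnd ℂ) (u.embedding y) := fun y =>
    (RingHom.congr_fun hc y).symm
  have hcc : c * c = 1 := by
    ext y
    apply u.embedding.injective
    rw [AlgEquiv.mul_apply, hc', hc', Complex.conj_conj, AlgEquiv.one_apply]
  have hc1 : c ≠ 1 := by
    intro h
    have hcx : u.IsComplex := hu.isComplex
    rw [InfinitePlace.isComplex_iff] at hcx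
    apply hcx
    ext y
    have := hc' y
    rw [h, AlgEquiv.one_apply] at this
    exact this.symm
  have hne : ∀ τ : L ≃ₐ[F] L, u.embedding (τ x) ≠ 0 := fun τ => by
    rw [Ne, map_eq_zero, map_eq_zero]
    exact hx
  have h1 : ((σ (Algebra.norm F x) : ℝ) : ℂ) = ∏ τ : L ≃ₐ[F] L, u.embedding (τ x) := by
    rw [hσ, Algebra.norm_eq_prod_automorphisms, map_prod]
  have h2 : ∏ τ : L ≃ₐ[F] L, (u.embedding (τ x) / (‖u.embedding (τ x)‖ : ℂ)) = 1 := by
    refine Finset.prod_involution (fun τ _ => c * τ) ?_ ?_ (fun _ _ => Finset.mem_univ _) ?_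
    · intro τ _
      have h3 : (‖u.embedding (τ x)‖ : ℂ) ≠ 0 := by
        exact_mod_cast (norm_ne_zero_iff.2 (hne τ))
      rw [AlgEquiv.mul_apply, hc', RCLike.norm_conj, div_mul_div_comm, Complex.mul_conj,
        Complex.normSq_eq_norm_sq]
      field_simp
      push_cast
      ring
    · intro τ _ _ h
      exact hc1 (mul_eq_right.1 h)
    · intro τ _
      rw [← mul_assoc, hcc, one_mul]
  have h3 : ∏ τ : L ≃ₐ[F] L, u.embedding (τ x) =
      ((∏ τ : L ≃ₐ[F] L, ‖u.embedding (τ x)‖ : ℝ) : ℂ) := by
    have h4 : ∏ τ : L ≃ₐ[F] L, u.embedding (τ x) =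
        (∏ τ : L ≃ₐ[F] L, (u.embedding (τ x) / (‖u.embedding (τ x)‖ : ℂ))) *
          ∏ τ : L ≃ₐ[F] L, (‖u.embedding (τ x)‖ : ℂ) := by
      rw [← Finset.prod_mul_distrib]
      refine Finset.prod_congr rfl fun τ _ => ?_
      rw [div_mul_cancel₀]
      exact_mod_cast (norm_ne_zero_iff.2 (hne τ))
    rw [h4, h2, one_mul]
    push_cast
    rfl
  rw [h3] at h1
  have h5 : σ (Algebra.norm F x) = ∏ τ : L ≃ₐ[F] L, ‖u.embedding (τ x)‖ :=
    Complex.ofReal_injective h1
  rw [h5]
  exact Finset.prod_pos fun τ _ => norm_pos_iff.2 (hne τ)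

end

theorem st_INFP : ST_INFP := by
  intro F L _ _ _ _ _ _
  refine ⟨?_, ?_, ?_, ?_⟩
  · intro w
    obtain ⟨u, rfl⟩ := InfinitePlace.comap_surjective (k := F) (K := L) w
    exact ⟨⟨⟨u, rfl⟩⟩, by rw [nw_eq, mul_comm, card_fib]⟩
  · intro τ u
    refine ⟨τ • u, fun x => by rw [InfinitePlace.smul_apply, AlgEquiv.symm_apply_apply], ?_⟩
    intro u' hu'
    ext x
    rw [InfinitePlace.smul_apply, ← hu', AlgEquiv.apply_symm_apply]
  · intro u u'
    constructor
    · intro h
      obtain ⟨τ, hτ⟩ := InfinitePlace.exists_smul_eq_of_comap_eq h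
      refine ⟨τ, fun x => ?_⟩
      rw [← hτ, InfinitePlace.smul_apply, AlgEquiv.symm_apply_apply]
    · rintro ⟨τ, hτ⟩
      ext x
      rw [InfinitePlace.comap_apply, InfinitePlace.comap_apply, ← hτ, AlgEquiv.commutes]
  · intro w
    obtain ⟨u, rfl⟩ := InfinitePlace.comap_surjective (k := F) (K := L) w
    rw [nw_eq]
    rcases InfinitePlace.nat_card_stabilizer_eq_one_or_two F u with h | h
    · exact Or.inl h
    · refine Or.inr ⟨h, ?_⟩
      have hr : InfinitePlace.IsRamified F u :=
        InfinitePlace.isRamified_iff_card_stabilizer_eq_two.2 h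
      have hreal : (u.comap (algebraMap F L)).IsReal := hr.isReal
      refine ⟨InfinitePlace.embedding_of_isReal hreal, fun x => ?_, ?_⟩
      · rw [← InfinitePlace.norm_embedding_of_isReal hreal x, Real.norm_eq_abs]
      · intro x hx
        refine norm_pos F L u hr _ (fun y => ?_) x hx
        rw [InfinitePlace.embedding_of_isReal_apply]
        have := InfinitePlace.comap_embedding_of_isReal (algebraMap F L) hreal
        rw [this]
        rfl

end Pool.Agent.Helper61.REC
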