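import Pool.Agent.Helper85.REC.Stmts11

set_option autoImplicit false

/-! REC, module AVS: complete reducibility can be tested on a subgroup of finite index. -/

open scoped Classical

namespace Pool.Agent.Helper61.REC

open _root_.REC
open MU

/-- AVS -/
theorem st_AVS : ST_AVS := by
  intro G H K _ _ _ φ n r hd hss m B A hsub
  obtain ⟨⟨C1, hC1⟩, hrB⟩ := hsub
  have hcan : ∀ x y : Matrix (Fin m) (Fin m) K, B * x = B * y → x = y := by
    intro x y hxy
    have h1 : C1 * (B * x) = C1 * (B * y) := by rw [hxy]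
    rwa [← Matrix.mul_assoc, ← Matrix.mul_assoc, hC1, Matrix.one_mul, Matrix.one_mul] at h1
  have hA : ∀ g h, A (g * h) = A g * A h := by
    intro g h
    apply hcan
    rw [← hrB, map_mul, Matrix.mul_assoc, hrB h, ← Matrix.mul_assoc, hrB g, Matrix.mul_assoc]
  have hA1 : A 1 = 1 := by
    apply hcan
    rw [← hrB, map_one, Matrix.one_mul, Matrix.mul_one]
  obtain ⟨C0, hC0, hC0r⟩ := hss m B (fun h => A (φ h)) ⟨⟨C1, hC1⟩, fun h => hrB (φ h)⟩
  have hC0r' : ∀ h, C0 * r (φ h) = A (φ h) * C0 := hC0r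
  have hrinv : ∀ g : G, r g * r g⁻¹ = 1 := by
    intro g; rw [← map_mul, mul_inv_cancel, map_one]
  set f : G → Matrix (Fin m) (Fin n) K := fun g => A g * C0 * r g⁻¹ with hf
  have hfφ : ∀ g h, f (g * φ h) = f g := by
    intro g h
    simp only [hf]
    rw [hA, mul_inv_rev, map_mul, Matrix.mul_assoc (A g), ← hC0r']
    calc A g * (C0 * r (φ h)) * (r (φ h)⁻¹ * r g⁻¹)
        = A g * C0 * (r (φ h) * r (φ h)⁻¹) * r g⁻¹ := by simp only [Matrix.mul_assoc]
      _ = A g * C0 * r g⁻¹ := by rw [hrinv, Matrix.mul_one]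
  have hindex : φ.range.index ≠ 0 := by
    intro h0; exact hd (by rw [h0, Nat.cast_zero])
  have : φ.range.FiniteIndex := ⟨hindex⟩
  have : Fintype (G ⧸ φ.range) := Subgroup.fintypeQuotientOfFiniteIndex
  let F : G ⧸ φ.range → Matrix (Fin m) (Fin n) K := fun q => Quotient.liftOn' q f (by
    intro a b hab
    rw [QuotientGroup.leftRel_apply] at hab
    obtain ⟨h, hh⟩ := hab
    have : b = a * φ h := by rw [hh, mul_inv_cancel_left]
    rw [this, hfφ])
  have hF : ∀ g : G, F (QuotientGroup.mk g) = f g := fun g => rfl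
  have hFB : ∀ q, F q * B = 1 := by
    intro q
    induction q using QuotientGroup.induction_on with
    | H g =>
      rw [hF]
      simp only [hf]
      rw [Matrix.mul_assoc, hrB, ← Matrix.mul_assoc, Matrix.mul_assoc (A g), hC0, Matrix.mul_one,
        ← hA, mul_inv_cancel, hA1]
  have hFx : ∀ (x : G) (q : G ⧸ φ.range), F (x • q) * r x = A x * F q := by
    intro x q
    induction q using QuotientGroup.induction_on with
    | H g =>
      have : x • (QuotientGroup.mk g : G ⧸ φ.range) = QuotientGroup.mk (x * g) := rfl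
      rw [this, hF, hF]
      simp only [hf]
      rw [hA, mul_inv_rev, map_mul]
      have hx : r x⁻¹ * r x = 1 := by rw [← map_mul, inv_mul_cancel, map_one]
      calc A x * A g * C0 * (r g⁻¹ * r x⁻¹) * r x
          = A x * (A g * C0 * r g⁻¹) * (r x⁻¹ * r x) := by simp only [Matrix.mul_assoc]
        _ = A x * (A g * C0 * r g⁻¹) := by rw [hx, Matrix.mul_one]
  have hcard : (Fintype.card (G ⧸ φ.range) : K) = (φ.range.index : K) := by
    rw [Subgroup.index_eq_card, Nat.card_eq_fintype_card]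
  refine ⟨(φ.range.index : K)⁻¹ • ∑ q, F q, ?_, fun x => ?_⟩
  · rw [Matrix.smul_mul, Matrix.sum_mul]
    simp only [hFB]
    rw [Finset.sum_const, Finset.card_univ, ← Nat.cast_smul_eq_nsmul K, hcard, smul_smul,
      inv_mul_cancel₀ hd, one_smul]
  · rw [Matrix.smul_mul, Matrix.mul_smul]
    congr 1
    rw [Matrix.mul_sum, Matrix.sum_mul]
    rw [← Equiv.sum_comp (MulAction.toPerm x : Equiv.Perm (G ⧸ φ.range)) (fun q => F q * r x)]
    exact Finset.sum_congr rfl fun q _ => hFx x q

end Pool.Agent.Helper61.REC
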