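import Pool.Agent.Helper61.REC.DATc

set_option autoImplicit false

/-! REC, module DAT: residual data in rank three. -/

open scoped Classical
open NumberField Polynomial

namespace Pool.Agent.Helper61.REC

open _root_.REC
open Pool.Agent.Helper13.ZL (Pl q)
open MU

section

variable {F : Type} [Field F] [NumberField F] {S : Finset ℕ} {w : ℕ} {h : Fin 3 → ℕ}

/-- the first part of the hypothesis of Fontaine and Laffaille at `l` -/
def Flt1 (l : ℕ) [Fact l.Prime] (h : Fin 3 → ℕ)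
    (r' : Gal F →* Matrix.GeneralLinearGroup (Fin 3) ℤ_[l]) : Prop :=
  ∀ (m : ℕ) (B : Matrix (Fin 3) (Fin m) (ZMod l)) (A : Gal F → Matrix (Fin m) (Fin m) (ZMod l)),
      IsSub (res r') B A → ∀ 𝔓 : Ideal (Zb F), Over l 𝔓 →
      ∃ J : Finset (Fin 3), J.card = m ∧ ∀ σ : Gal F, CongPow 𝔓 1 σ →
        (A σ).det * (PadicInt.toZMod ((cyc l F σ : ℤ_[l]ˣ) : ℤ_[l])) ^ (∑ j ∈ J, h j) = 1

/-- the cyclotomic character modulo `l` -/
noncomputable def cc (l : ℕ) [Fact l.Prime] (σ : Gal F) : ZMod l :=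
  PadicInt.toZMod ((cyc l F σ : ℤ_[l]ˣ) : ℤ_[l])

theorem cc_mul_inv (l : ℕ) [Fact l.Prime] (σ : Gal F) :
    cc l σ * PadicInt.toZMod (((cyc l F σ)⁻¹ : ℤ_[l]ˣ) : ℤ_[l]) = 1 := by
  unfold cc
  rw [← map_mul, Units.mul_inv, map_one]

theorem cc_ne (l : ℕ) [Fact l.Prime] (σ : Gal F) : cc l σ ≠ 0 :=
  left_ne_zero_of_mul_eq_one (cc_mul_inv l σ)

theorem dat_coef {l : ℕ} (a b c : ZMod l) :
    ((Polynomial.X : (ZMod l)[X]) ^ 3 - C a * (Polynomial.X : (ZMod l)[X]) ^ 2 -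
      C b * (Polynomial.X : (ZMod l)[X]) + C c).coeff 2 = - a ∧
    ((Polynomial.X : (ZMod l)[X]) ^ 3 - C a * (Polynomial.X : (ZMod l)[X]) ^ 2 -
      C b * (Polynomial.X : (ZMod l)[X]) + C c).coeff 1 = - b ∧
    ((Polynomial.X : (ZMod l)[X]) ^ 3 - C a * (Polynomial.X : (ZMod l)[X]) ^ 2 -
      C b * (Polynomial.X : (ZMod l)[X]) + C c).coeff 0 = c := by
  refine ⟨?_, ?_, ?_⟩ <;>
  simp [coeff_X_pow, coeff_X, coeff_C]

theorem dat_two (M : Mot F S 3 w h) (hinj : Function.Injective h)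
    (hw : ∀ i, ∃ j, h i + h j = w) (l : ℕ) [Fact l.Prime] (hl2 : (2 : ZMod l) ≠ 0)
    (hINL : ∀ j, 2 * h j ≠ w → ∀ 𝔓 : Ideal (Zb F), Over l 𝔓 → ∃ σ : Gal F, CongPow 𝔓 1 σ ∧
      cc l σ ^ ((2 * h j - w) + (w - 2 * h j)) ≠ 1)
    {r' : Gal F →* Matrix.GeneralLinearGroup (Fin 3) ℤ_[l]} (hE : EqvQ (M.ρ l) r')
    (hflt : Flt1 l h r') (G' : Subgroup (Gal F)) (χ ν : Gal F → ZMod l) (hG' : G'.index = 2)
    (hker : ∀ g, res r' g = 1 → g ∈ G') (hχ : ∀ g, χ g ^ 2 = ν g)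
    (hν : ∀ g, ν g * cc l g ^ w = 1)
    (hcp : ∀ g, g ∉ G' → (res r' g).charpoly = (Polynomial.X : (ZMod l)[X]) ^ 3 -
      C (χ g) * (Polynomial.X : (ZMod l)[X]) ^ 2 - C (χ g ^ 2) * (Polynomial.X : (ZMod l)[X]) +
        C (χ g ^ 3))
    (hor : (∃ (B : Matrix (Fin 3) (Fin 1) (ZMod l)) (A : Gal F → Matrix (Fin 1) (Fin 1) (ZMod l)),
      IsSub (res r') B A ∧ ∀ g, (A g).det = χ g) ∨
        ∃ (B : Matrix (Fin 3) (Fin 2) (ZMod l)) (A : Gal F → Matrix (Fin 2) (Fin 2) (ZMod l)),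
          IsSub (res r') B A ∧ ∀ g, (A g).det * χ g = (res r' g).det) : EDat M l := by
  have hχ0 : ∀ g, χ g ≠ 0 := by
    intro g h0
    have h1 := hν g
    rw [← hχ g, h0] at h1
    simp at h1
  have hcoef : ∀ g, g ∉ G' → (res r' g).charpoly.coeff 2 = - χ g ∧
      (res r' g).charpoly.coeff 1 = - χ g ^ 2 ∧ (res r' g).charpoly.coeff 0 = χ g ^ 3 := by
    intro g hg
    rw [hcp g hg]
    exact dat_coef (χ g) (χ g ^ 2) (χ g ^ 3)
  refine ⟨G', open_of_res (eqvQ_cont hE (M.continuous l)) _ hker, hG', ?_, ?_⟩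
  · intro p hp 𝔓 h𝔓 σ hσ
    by_contra hcon
    by_cases hpl : p = l
    · -- inertia at `l`
      subst hpl
      -- `χ` is a power of the cyclotomic character
      obtain ⟨J3, hJ3, hd⟩ := hflt 3 1 (res r') (IsSub.whole _) 𝔓 h𝔓
      have hJ3' := card3 J3 hJ3
      subst hJ3'
      obtain ⟨j, hj⟩ : ∃ j, ∀ τ : Gal F, CongPow 𝔓 1 τ → χ τ * cc p τ ^ h j = 1 := by
        rcases hor with ⟨B, A, hBA, hA⟩ | ⟨B, A, hBA, hA⟩
        · obtain ⟨J, hJ, hJ'⟩ := hflt 1 B A hBA 𝔓 h𝔓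
          obtain ⟨j, rfl⟩ := Finset.card_eq_one.1 hJ
          refine ⟨j, fun τ hτ => ?_⟩
          have h1 := hJ' τ hτ
          rw [hA, Finset.sum_singleton] at h1
          exact h1
        · obtain ⟨J, hJ, hJ'⟩ := hflt 2 B A hBA 𝔓 h𝔓
          have hJc : (Jᶜ).card = 1 := by
            rw [Finset.card_compl, hJ, Fintype.card_fin]
          obtain ⟨j, hj⟩ := Finset.card_eq_one.1 hJc
          refine ⟨j, fun τ hτ => ?_⟩
          have h1 := hJ' τ hτ
          have h2 := hd τ hτ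
          have h3 : ∑ i, h i = ∑ i ∈ J, h i + h j := by
            rw [← Finset.sum_add_sum_compl J, hj, Finset.sum_singleton]
          rw [h3, pow_add, ← hA τ] at h2
          calc χ τ * cc p τ ^ h j = ((A τ).det * (PadicInt.toZMod ((cyc p F τ : ℤ_[p]ˣ) : ℤ_[p])) ^
                (∑ j ∈ J, h j)) * (χ τ * cc p τ ^ h j) := by rw [h1, one_mul]
            _ = 1 := by
              rw [← h2]
              unfold cc
              ring
      have h2j : 2 * h j = w := by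
        by_contra hne
        obtain ⟨τ, hτ, hτ2⟩ := hINL j hne 𝔓 h𝔓
        apply hτ2
        have h1 := hj τ hτ
        have h2 := hν τ
        rw [← hχ τ] at h2
        have h3 : cc p τ ^ (2 * h j) = cc p τ ^ w := by
          have h4 : χ τ ^ 2 * cc p τ ^ (2 * h j) = 1 := by
            rw [mul_comm 2 (h j), pow_mul, ← mul_pow, h1, one_pow]
          exact mul_left_cancel₀ (pow_ne_zero 2 (hχ0 τ)) (h4.trans h2.symm)
        rcases lt_or_gt_of_ne hne with h5 | h5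
        · have h6 : w = 2 * h j + (w - 2 * h j) := by omega
          rw [h6, pow_add] at h3
          have h7 : 2 * h j - w + (w - 2 * h j) = w - 2 * h j := by omega
          rw [h7]
          exact (mul_left_cancel₀ (pow_ne_zero _ (cc_ne p τ)) ((mul_one _).trans h3)).symm
        · have h6 : 2 * h j = w + (2 * h j - w) := by omega
          rw [h6, pow_add] at h3
          have h7 : 2 * h j - w + (w - 2 * h j) = 2 * h j - w := by omega
          rw [h7]
          exact mul_left_cancel₀ (pow_ne_zero _ (cc_ne p τ)) (h3.trans (mul_one _).symm)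
      have hsum : ∑ i, h i = h j * 3 := by
        have := sum_types hinj hw
        omega
      have h1 := hj σ hσ
      have h2 : (res r' σ).det * cc p σ ^ (h j * 3) = 1 := by
        have := hd σ hσ
        rw [hsum] at this
        exact this
      have h3 : (res r' σ).det = χ σ ^ 3 := by
        have h4 : χ σ ^ 3 * cc p σ ^ (h j * 3) = 1 := by
          rw [pow_mul, ← mul_pow, h1, one_pow]
        exact mul_right_cancel₀ (pow_ne_zero _ (cc_ne p σ)) (h2.trans h4.symm)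
      have h4 := (hcoef σ hcon).2.2
      rw [charpoly_coeff_zero, h3] at h4
      have h5 : (2 : ZMod p) * χ σ ^ 3 = 0 := by
        linear_combination (-1 : ZMod p) * h4
      rcases mul_eq_zero.1 h5 with h6 | h6
      · exact hl2 h6
      · exact pow_ne_zero 3 (hχ0 σ) h6
    · -- inertia away from `l`
      have h1 := inr_unip M l hE p hp hpl 𝔓 h𝔓 σ hσ
      have h2 : χ σ = 1 := by
        refine unip_root _ h1 _ ?_
        rw [hcp σ hcon, IsRoot.def]
        simp only [eval_add, eval_sub, eval_mul, eval_pow, eval_X, eval_C]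
        ring
      have h3 : - χ σ = 1 := by
        refine unip_root _ h1 _ ?_
        rw [hcp σ hcon, IsRoot.def]
        simp only [eval_add, eval_sub, eval_mul, eval_pow, eval_X, eval_C]
        ring
      apply hl2
      rw [h2] at h3
      linear_combination (-1 : ZMod l) * h3
  · intro σ hσ
    obtain ⟨c2, c1, c0⟩ := hcoef σ hσ
    rw [eqvQ_res_charpoly hE, c2, c1, c0]
    constructor <;> ring

end

theorem st_DAT (hSYM : ST_SYM) (hMXL : ST_MXL) (hRS3 : ST_RS3) (hINL : ST_INL)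
    (hOVP : ST_OVP) : ST_DAT := by
  intro F _ _ S hS w h M hinj hw hFLT hirr
  obtain ⟨c₀, hc₀⟩ := hFLT
  have hI : ∀ j : Fin 3, ∃ c : ℕ, 2 * h j ≠ w → ∀ (l : ℕ) [Fact l.Prime],
      c < l → ∀ 𝔓 : Ideal (Zb F), Over l 𝔓 → ∃ σ : Gal F, CongPow 𝔓 1 σ ∧
        cc l σ ^ ((2 * h j - w) + (w - 2 * h j)) ≠ 1 := by
    intro j
    by_cases hne : 2 * h j ≠ w
    · obtain ⟨c, hc⟩ := hINL F ((2 * h j - w) + (w - 2 * h j)) (by omega)
      exact ⟨c, fun _ => hc⟩
    · exact ⟨0, fun h1 => absurd h1 hne⟩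
  choose c₁ hc₁ using hI
  refine ⟨c₀ + (∑ j, c₁ j) + 2, ?_⟩
  intro l _ hl hnirr
  have hlp : l.Prime := Fact.out
  have hl0 : c₀ < l := by omega
  have hl1 : ∀ j, c₁ j < l := by
    intro j
    have := Finset.single_le_sum (f := c₁) (fun i _ => Nat.zero_le _) (Finset.mem_univ j)
    omega
  have hl2 : (2 : ZMod l) ≠ 0 := by
    intro h2
    have h3 : ((2 : ℕ) : ZMod l) = 0 := by exact_mod_cast h2
    rw [ZMod.natCast_eq_zero_iff] at h3
    have := Nat.le_of_dvd two_pos h3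
    omega
  obtain ⟨ψ, hψ⟩ := hSYM F S hS 3 w h M (by decide) l (hirr l)
  obtain ⟨r', Ψ, X, ν', hE, hΨt, hXt, hΨX, hν', hrΨ, hrX⟩ := hMXL (Gal F) 3 l (by norm_num) (M.ρ l) ψ
    _ hψ
  obtain ⟨hf1, hf2⟩ := hc₀ l hl0 r' hE
  have hnirr' : ¬ IsIrr (res r') := fun h1 => hnirr (irr_of_eqvQ hE h1)
  obtain ⟨k, _, _, κ, ι, hι⟩ := exists_fld F l
  obtain ⟨hred, hrank⟩ := rank_red Ψ X hΨX
  -- the reductions
  have hν2 : ∀ g, PadicInt.toZMod (ν' g) * cc l g ^ w = 1 := by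
    intro g
    have h1 : ν' g = (((cyc l F g)⁻¹ : ℤ_[l]ˣ) : ℤ_[l]) ^ w := by
      have h2 := hν' g
      have h3 : ((((((cyc l F g)⁻¹ : ℤ_[l]ˣ) : ℤ_[l]) ^ w : ℤ_[l])) : ℚ_[l]) =
          ((((cyc l F g)⁻¹ : ℤ_[l]ˣ) : ℤ_[l]) : ℚ_[l]) ^ w := PadicInt.coe_pow _ _
      rw [← h3] at h2
      exact Subtype.coe_injective h2
    rw [h1, map_pow, ← mul_pow, mul_comm, cc_mul_inv, one_pow]
  have e1 : ∀ g, (res r' g).transpose * (Ψ.map (PadicInt.toZMod (p := l))) * res r' g =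
      PadicInt.toZMod (ν' g) • (Ψ.map (PadicInt.toZMod (p := l))) := by
    intro g
    have h1 := congrArg (fun z => Matrix.map z (PadicInt.toZMod (p := l))) (hrΨ g)
    simp only [Matrix.map_mul, Matrix.transpose_map] at h1
    rw [res_coe, h1]
    ext i j
    simp
  have e2 : ∀ g, res r' g * (X.map (PadicInt.toZMod (p := l))) * (res r' g).transpose =
      PadicInt.toZMod (ν' g) • (X.map (PadicInt.toZMod (p := l))) := by
    intro g
    have h1 := congrArg (fun z => Matrix.map z (PadicInt.toZMod (p := l))) (hrX g)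
    simp only [Matrix.map_mul, Matrix.transpose_map] at h1
    rw [res_coe, h1]
    ext i j
    simp
  rcases hRS3 (Gal F) (ZMod l) k κ (res r') (Ψ.map (PadicInt.toZMod (p := l)))
    (X.map (PadicInt.toZMod (p := l))) (fun g => PadicInt.toZMod (ν' g)) hl2
    (by rw [← Matrix.transpose_map, hΨt]) (by rw [← Matrix.transpose_map, hXt]) hred hrank e1 e2
    hnirr' with ⟨B₁, A₁, B₂, A₂, Y, h₁, h₂, hY⟩ | ⟨G', χ, hG', hker, hχ, hcp, hor⟩
  · left
    exact dat_one hOVP M l hE (fun k => hf2 k) k κ ι hι B₁ A₁ B₂ A₂ Y h₁ h₂ hY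
  · right
    exact dat_two M hinj hw l hl2 (fun j hj => hc₁ j hj l (hl1 j)) hE (fun m => hf1 m) G' χ _ hG'
      hker hχ hν2 hcp hor

end Pool.Agent.Helper61.REC
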