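import Pool.Agent.Helper85.REC.Stmts9
import Pool.Agent.Helper85.MU.SubLem
import Pool.Agent.Helper85.REC.Gl2
import Pool.Agent.Helper77.MU.LARGE

set_option autoImplicit false

/-! REC, module DAT, part a: linear algebra. -/

open scoped Classical
open NumberField Polynomial

namespace Pool.Agent.Helper61.REC

open _root_.REC
open Pool.Agent.Helper13.ZL (Pl q)
open MU

/-! ### Characteristic polynomials -/

theorem monic_dvd_succ {k : Type} [Field k] {P Q : k[X]} (hP : P.Monic) (hQ : Q.Monic) (hd : Q ∣ P)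
    (hdeg : P.natDegree = Q.natDegree + 1) (h0 : Q.coeff 0 ≠ 0) :
    P = Q * (Polynomial.X - C (-(P.coeff 0 / Q.coeff 0))) := by
  obtain ⟨R, rfl⟩ := hd
  have hR : R.Monic := hQ.of_mul_monic_left hP
  have hR1 : R.natDegree = 1 := by
    rw [hQ.natDegree_mul hR] at hdeg
    omega
  have h1 : R = Polynomial.X + C (R.coeff 0) := by
    have := hR.eq_X_add_C hR1
    exact this
  have h2 : (Q * R).coeff 0 / Q.coeff 0 = R.coeff 0 := by
    rw [Polynomial.mul_coeff_zero, mul_div_cancel_left₀ _ h0]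
  rw [h2]
  conv_lhs => rw [h1]
  rw [C_neg, sub_neg_eq_add]

theorem charpoly_coeff_zero {k : Type} [Field k] {n : ℕ} (A : Matrix (Fin n) (Fin n) k) :
    A.charpoly.coeff 0 = (-1) ^ n * A.det := by
  rw [Matrix.det_eq_sign_charpoly_coeff, Fintype.card_fin, ← mul_assoc, ← mul_pow, neg_one_mul,
    neg_neg, one_pow, one_mul]

/-- the characteristic polynomial in the presence of a flag -/
theorem flag_charpoly {k : Type} [Field k] (R : Matrix (Fin 3) (Fin 3) k)
    (B₁ : Matrix (Fin 3) (Fin 1) k) (a₁ : Matrix (Fin 1) (Fin 1) k) (B₂ : Matrix (Fin 3) (Fin 2) k)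
    (a₂ : Matrix (Fin 2) (Fin 2) k) (Y : Matrix (Fin 2) (Fin 1) k) (C₁ : Matrix (Fin 1) (Fin 3) k)
    (C₂ : Matrix (Fin 2) (Fin 3) k) (h₁ : C₁ * B₁ = 1) (h₂ : C₂ * B₂ = 1) (e₁ : R * B₁ = B₁ * a₁)
    (e₂ : R * B₂ = B₂ * a₂) (hY : B₁ = B₂ * Y) (d₁ : a₁.det ≠ 0) (d₂ : a₂.det ≠ 0) :
    R.charpoly = (Polynomial.X - C a₁.det) * (Polynomial.X - C (a₂.det / a₁.det)) * (Polynomial.X - C (R.det / a₂.det)) := by
  have h3 : (C₁ * B₂) * Y = 1 := by rw [Matrix.mul_assoc, ← hY, h₁]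
  have h4 : a₂ * Y = Y * a₁ := by
    have h5 : B₂ * (a₂ * Y) = B₂ * (Y * a₁) := by
      rw [← Matrix.mul_assoc, ← e₂, Matrix.mul_assoc, ← hY, e₁, hY, Matrix.mul_assoc]
    have h6 := congrArg (fun Z => C₂ * Z) h5
    simp only [← Matrix.mul_assoc, h₂, Matrix.one_mul] at h6
    exact h6
  have c1 : a₁.charpoly.coeff 0 = - a₁.det := by
    rw [charpoly_coeff_zero]
    ring
  have c2 : a₂.charpoly.coeff 0 = a₂.det := by
    rw [charpoly_coeff_zero]
    ring
  have c3 : R.charpoly.coeff 0 = - R.det := by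
    rw [charpoly_coeff_zero]
    ring
  have q1 : a₁.charpoly = Polynomial.X - C a₁.det := by
    have h5 : a₁.charpoly = Polynomial.X + C (a₁.charpoly.coeff 0) := by
      refine a₁.charpoly_monic.eq_X_add_C ?_
      rw [Matrix.charpoly_natDegree_eq_dim, Fintype.card_fin]
    rw [h5, c1, C_neg, ← sub_eq_add_neg]
  have q2 := monic_dvd_succ a₂.charpoly_monic a₁.charpoly_monic (sub_charpoly_dvd h3 h4)
    (by rw [Matrix.charpoly_natDegree_eq_dim, Matrix.charpoly_natDegree_eq_dim, Fintype.card_fin,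
      Fintype.card_fin]) (by rw [c1]; exact neg_ne_zero.2 d₁)
  have q3 := monic_dvd_succ R.charpoly_monic a₂.charpoly_monic (sub_charpoly_dvd h₂ e₂)
    (by rw [Matrix.charpoly_natDegree_eq_dim, Matrix.charpoly_natDegree_eq_dim, Fintype.card_fin,
      Fintype.card_fin]) (by rw [c2]; exact d₂)
  rw [c1, c2, q1, div_neg, neg_neg] at q2
  rw [c2, c3, q2, neg_div, neg_neg] at q3
  exact q3

/-- the roots of the characteristic polynomial of a unipotent matrix -/
theorem unip_root {k : Type} [Field k] {n : ℕ} (R : Matrix (Fin n) (Fin n) k)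
    (h : (R - 1) ^ n = 0) (z : k) (hz : R.charpoly.IsRoot z) : z = 1 := by
  have h1 : (Matrix.scalar (Fin n) z - R).det = 0 := by
    rw [← Matrix.eval_charpoly]
    exact hz
  obtain ⟨v, hv, hv0⟩ := Matrix.exists_mulVec_eq_zero_iff.2 h1
  have h2 : (R - 1).mulVec v = (z - 1) • v := by
    rw [Matrix.sub_mulVec, Matrix.scalar_apply, ← Matrix.smul_one_eq_diagonal, Matrix.smul_mulVec,
      Matrix.one_mulVec, sub_eq_zero] at hv0
    rw [Matrix.sub_mulVec, Matrix.one_mulVec, ← hv0, sub_smul, one_smul]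
  have h3 : ∀ j : ℕ, ((R - 1) ^ j).mulVec v = (z - 1) ^ j • v := by
    intro j
    induction j with
    | zero => rw [pow_zero, pow_zero, Matrix.one_mulVec, one_smul]
    | succ j ih => rw [pow_succ, ← Matrix.mulVec_mulVec, h2, Matrix.mulVec_smul, ih, smul_smul,
        pow_succ, mul_comm]
  have h4 := h3 n
  rw [h, Matrix.zero_mulVec] at h4
  rcases smul_eq_zero.1 h4.symm with h5 | h5
  · exact sub_eq_zero.1 (eq_zero_of_pow_eq_zero h5)
  · exact absurd h5 hv

/-! ### Stable subspaces -/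

section

variable {G K : Type} [Group G] [Field K] {n m : ℕ} {r : G →* Matrix (Fin n) (Fin n) K}
  {B : Matrix (Fin n) (Fin m) K} {A : G → Matrix (Fin m) (Fin m) K}

/-- the determinant on a stable subspace -/
noncomputable def subDet (h : IsSub r B A) : G →* Kˣ :=
  MonoidHom.toHomUnits
    { toFun := fun g => (A g).det
      map_one' := by rw [h.one, Matrix.det_one]
      map_mul' := fun g g' => by rw [h.mul, Matrix.det_mul] }

theorem subDet_coe (h : IsSub r B A) (g : G) : ((subDet h g : Kˣ) : K) = (A g).det := rfl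

theorem subDet_ne (h : IsSub r B A) (g : G) : (A g).det ≠ 0 := by
  rw [← subDet_coe h]
  exact Units.ne_zero _

theorem subDet_of_one (h : IsSub r B A) (g : G) (hg : r g = 1) : subDet h g = 1 := by
  apply Units.ext
  rw [subDet_coe, Units.val_one]
  obtain ⟨C, hC⟩ := h.1
  have h1 := h.2 g
  rw [hg, Matrix.one_mul] at h1
  have h2 := congrArg (fun Z => C * Z) h1
  simp only [← Matrix.mul_assoc, hC, Matrix.one_mul] at h2
  rw [← h2, Matrix.det_one]

end

/-! ### Conjugate integral representations -/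

section

variable {G : Type} [Group G] {n l : ℕ} [Fact l.Prime]
  {r s : G →* Matrix.GeneralLinearGroup (Fin n) ℤ_[l]}

theorem eqvQ_symm (h : EqvQ r s) : EqvQ s r := by
  obtain ⟨u, hu⟩ := h
  refine ⟨u⁻¹, fun g => ?_⟩
  have h1 := hu g
  have h2 : (u : Matrix (Fin n) (Fin n) ℚ_[l]) * ((u⁻¹ : Matrix.GeneralLinearGroup (Fin n) ℚ_[l]) :
      Matrix (Fin n) (Fin n) ℚ_[l]) = 1 := u.mul_inv
  have h3 : ((u⁻¹ : Matrix.GeneralLinearGroup (Fin n) ℚ_[l]) : Matrix (Fin n) (Fin n) ℚ_[l]) *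
      (u : Matrix (Fin n) (Fin n) ℚ_[l]) = 1 := u.inv_mul
  calc _ = ((u⁻¹ : Matrix.GeneralLinearGroup (Fin n) ℚ_[l]) : Matrix (Fin n) (Fin n) ℚ_[l]) *
        (rat s g * u) * ((u⁻¹ : Matrix.GeneralLinearGroup (Fin n) ℚ_[l]) :
          Matrix (Fin n) (Fin n) ℚ_[l]) := by
        rw [Matrix.mul_assoc, Matrix.mul_assoc, h2, Matrix.mul_one]
    _ = _ := by
        rw [← h1, ← Matrix.mul_assoc, h3, Matrix.one_mul]

theorem rat_coe (r : G →* Matrix.GeneralLinearGroup (Fin n) ℤ_[l]) (g : G) :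
    rat r g = (r g : Matrix (Fin n) (Fin n) ℤ_[l]).map (algebraMap ℤ_[l] ℚ_[l]) := rfl

theorem res_coe (r : G →* Matrix.GeneralLinearGroup (Fin n) ℤ_[l]) (g : G) :
    res r g = (r g : Matrix (Fin n) (Fin n) ℤ_[l]).map (PadicInt.toZMod (p := l)) := rfl

theorem eqvQ_conj (h : EqvQ r s) : ∃ u : Matrix.GeneralLinearGroup (Fin n) ℚ_[l], ∀ g,
    rat s g = (u : Matrix (Fin n) (Fin n) ℚ_[l]) * rat r g *
      ((u⁻¹ : Matrix.GeneralLinearGroup (Fin n) ℚ_[l]) : Matrix (Fin n) (Fin n) ℚ_[l]) := by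
  obtain ⟨u, hu⟩ := h
  refine ⟨u, fun g => ?_⟩
  rw [hu g, Matrix.mul_assoc, u.mul_inv, Matrix.mul_one]

theorem eqvQ_charpoly (h : EqvQ r s) (g : G) : (r g : Matrix (Fin n) (Fin n) ℤ_[l]).charpoly =
    (s g : Matrix (Fin n) (Fin n) ℤ_[l]).charpoly := by
  obtain ⟨u, hu⟩ := eqvQ_conj h
  have h1 : (rat s g).charpoly = (rat r g).charpoly := by
    rw [hu g, Matrix.coe_units_inv]
    exact Matrix.charpoly_units_conj u (rat r g)
  rw [rat_coe, rat_coe, Matrix.charpoly_map, Matrix.charpoly_map] at h1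
  exact (Polynomial.map_injective _ (IsFractionRing.injective ℤ_[l] ℚ_[l]) h1).symm

theorem eqvQ_res_charpoly (h : EqvQ r s) (g : G) : (res r g).charpoly = (res s g).charpoly := by
  rw [res_coe, res_coe, Matrix.charpoly_map, Matrix.charpoly_map, eqvQ_charpoly h]

theorem eqvZ_irr (h : EqvZ r s) (hr : IsIrr (res r)) : IsIrr (res s) := by
  obtain ⟨u, hu⟩ := h
  intro m B A hBA
  let ub : Matrix.GeneralLinearGroup (Fin n) (ZMod l) :=
    Matrix.GeneralLinearGroup.map (PadicInt.toZMod (p := l)) u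
  have h1 : ∀ g, (ub : Matrix (Fin n) (Fin n) (ZMod l)) * res r g = res s g * ub := by
    intro g
    have h2 := congrArg (fun z : Matrix.GeneralLinearGroup (Fin n) ℤ_[l] =>
      (z : Matrix (Fin n) (Fin n) ℤ_[l]).map (PadicInt.toZMod (p := l))) (hu g)
    simp only [Units.val_mul, Matrix.map_mul] at h2
    exact h2
  refine hr m (((ub⁻¹ : Matrix.GeneralLinearGroup (Fin n) (ZMod l)) :
    Matrix (Fin n) (Fin n) (ZMod l)) * B) A ⟨?_, fun g => ?_⟩
  · obtain ⟨C, hC⟩ := hBA.1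
    refine ⟨C * (ub : Matrix (Fin n) (Fin n) (ZMod l)), ?_⟩
    rw [Matrix.mul_assoc, ← Matrix.mul_assoc (ub : Matrix (Fin n) (Fin n) (ZMod l)), ub.mul_inv,
      Matrix.one_mul, hC]
  · have h3 : res r g * ((ub⁻¹ : Matrix.GeneralLinearGroup (Fin n) (ZMod l)) :
        Matrix (Fin n) (Fin n) (ZMod l)) = ((ub⁻¹ : Matrix.GeneralLinearGroup (Fin n) (ZMod l)) :
        Matrix (Fin n) (Fin n) (ZMod l)) * res s g := by
      have h4 := h1 g
      calc _ = ((ub⁻¹ : Matrix.GeneralLinearGroup (Fin n) (ZMod l)) :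
            Matrix (Fin n) (Fin n) (ZMod l)) * (ub * res r g) *
              ((ub⁻¹ : Matrix.GeneralLinearGroup (Fin n) (ZMod l)) :
                Matrix (Fin n) (Fin n) (ZMod l)) := by
            rw [← Matrix.mul_assoc, ub.inv_mul, Matrix.one_mul]
        _ = _ := by
            rw [h4, Matrix.mul_assoc, Matrix.mul_assoc, ub.mul_inv, Matrix.mul_one]
    rw [← Matrix.mul_assoc, h3, Matrix.mul_assoc, hBA.2 g, Matrix.mul_assoc]

/-- the residual representations of all stable lattices are reducible -/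
theorem irr_of_eqvQ (h : EqvQ r s) (hs : IsIrr (res s)) : IsIrr (res r) :=
  eqvZ_irr (MU.st_LARGE G n l s r hs (eqvQ_symm h)) hs

theorem eqvQ_unip (h : EqvQ r s) (g : G) (hg : (rat r g - 1) ^ n = 0) : (res s g - 1) ^ n = 0 := by
  obtain ⟨u, hu⟩ := eqvQ_conj h
  have h1 : rat s g - 1 = (u : Matrix (Fin n) (Fin n) ℚ_[l]) * (rat r g - 1) *
      ((u⁻¹ : Matrix.GeneralLinearGroup (Fin n) ℚ_[l]) : Matrix (Fin n) (Fin n) ℚ_[l]) := by
    rw [hu g, mul_sub, sub_mul, mul_one, u.mul_inv]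
  have h2 : (rat s g - 1) ^ n = 0 := by
    have h3 : ∀ j : ℕ, (rat s g - 1) ^ j = (u : Matrix (Fin n) (Fin n) ℚ_[l]) * (rat r g - 1) ^ j *
      ((u⁻¹ : Matrix.GeneralLinearGroup (Fin n) ℚ_[l]) : Matrix (Fin n) (Fin n) ℚ_[l]) := by
      intro j
      induction j with
      | zero => rw [pow_zero, pow_zero, mul_one, u.mul_inv]
      | succ j ih =>
        rw [pow_succ, ih, h1, pow_succ]
        simp only [mul_assoc]
        rw [← mul_assoc _ (u : Matrix (Fin n) (Fin n) ℚ_[l]) _, u.inv_mul, one_mul]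
    rw [h3, hg, mul_zero, zero_mul]
  have h4 : ((s g : Matrix (Fin n) (Fin n) ℤ_[l]) - 1) ^ n = 0 := by
    have h5 : ((algebraMap ℤ_[l] ℚ_[l]).mapMatrix (m := Fin n))
        (((s g : Matrix (Fin n) (Fin n) ℤ_[l]) - 1) ^ n) = 0 := by
      rw [map_pow, map_sub, map_one]
      exact h2
    have h6 : Function.Injective ((algebraMap ℤ_[l] ℚ_[l]).mapMatrix (m := Fin n)) :=
      Matrix.map_injective (IsFractionRing.injective ℤ_[l] ℚ_[l])
    exact h6 (by rw [h5, map_zero])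
  have h7 := congrArg ((PadicInt.toZMod (p := l)).mapMatrix (m := Fin n)) h4
  rw [map_pow, map_sub, map_one, map_zero] at h7
  exact h7

end

end Pool.Agent.Helper61.REC
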