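import Pool.Agent.Helper61.REC.DATb

set_option autoImplicit false

/-! REC, module DAT, part c: the first case. -/

open scoped Classical
open NumberField Polynomial

namespace Pool.Agent.Helper61.REC

open _root_.REC
open Pool.Agent.Helper13.ZL (Pl q)
open MU

theorem perm3 : ∀ J J' : Finset (Fin 3), J ⊆ J' → J.card = 1 → J'.card = 2 →
    ∃ s : Equiv.Perm (Fin 3), J = {s 0} ∧ J' = {s 0, s 1} := by
  decide

theorem card3 (J : Finset (Fin 3)) (h : J.card = 3) : J = Finset.univ :=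
  Finset.eq_univ_of_card J (by rw [h, Fintype.card_fin])

section

variable {F : Type} [Field F] [NumberField F] {S : Finset ℕ} {w : ℕ} {h : Fin 3 → ℕ}

theorem inr_unip (M : Mot F S 3 w h) (l : ℕ) [Fact l.Prime]
    {r' : Gal F →* Matrix.GeneralLinearGroup (Fin 3) ℤ_[l]} (hE : EqvQ (M.ρ l) r') (p : ℕ)
    (hp : p.Prime) (hpl : p ≠ l) (𝔓 : Ideal (Zb F)) (h𝔓 : Over p 𝔓) (σ : Gal F)
    (hσ : CongPow 𝔓 1 σ) : (res r' σ - 1) ^ 3 = 0 := by
  refine eqvQ_unip hE σ ?_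
  by_cases hpS : p ∈ S
  · exact M.semistable l p hpS hpl 𝔓 h𝔓 σ hσ
  · have h1 := M.good l p hp hpS hpl 𝔓 h𝔓 σ hσ
    have h2 : rat (M.ρ l) σ = 1 := by
      rw [rat_coe, h1]
      ext i j
      rw [Matrix.map_apply, Units.val_one, Matrix.one_apply, Matrix.one_apply]
      split_ifs <;> simp
    rw [h2, sub_self]
    exact zero_pow three_ne_zero

/-- the second part of the hypothesis of Fontaine and Laffaille at `l` -/
def Flt2 (l : ℕ) [Fact l.Prime] (h : Fin 3 → ℕ)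
    (r' : Gal F →* Matrix.GeneralLinearGroup (Fin 3) ℤ_[l]) : Prop :=
  ∀ (k : Type) [Field k] (κ : ZMod l →+* k) (ι : 𝓞 (AlgebraicClosure F) →+* k) (m m' : ℕ)
      (B : Matrix (Fin 3) (Fin m) k) (A : Gal F → Matrix (Fin m) (Fin m) k)
      (B' : Matrix (Fin 3) (Fin m') k) (A' : Gal F → Matrix (Fin m') (Fin m') k)
      (Y : Matrix (Fin m') (Fin m) k), IsSub (mapk κ (res r')) B A → IsSub (mapk κ (res r')) B' A' →
      B = B' * Y → ∀ v : Pl F, (l : 𝓞 F) ∈ v.asIdeal →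
      ∃ J J' : (F →+* AlgebraicClosure F) → Finset (Fin 3),
        (∀ τ, J τ ⊆ J' τ ∧ (J τ).card = m ∧ (J' τ).card = m') ∧
        ∀ (π : 𝓞 F), π ∈ v.asIdeal → π ∉ v.asIdeal ^ 2 → ∀ 𝔓 : Ideal (Zb F), OverP v 𝔓 →
          ∀ σ : Gal F, CongPow 𝔓 1 σ → ∀ u : 𝓞 F, u ∉ v.asIdeal → Tm v 𝔓 π σ u →
            (A σ).det * tmp ι v (fun τ => ∑ j ∈ J τ, h j) u = 1 ∧
            (A' σ).det * tmp ι v (fun τ => ∑ j ∈ J' τ, h j) u = 1

theorem dat_one (hOVP : ST_OVP) (M : Mot F S 3 w h) (l : ℕ) [Fact l.Prime]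
    {r' : Gal F →* Matrix.GeneralLinearGroup (Fin 3) ℤ_[l]} (hE : EqvQ (M.ρ l) r')
    (hflt : Flt2 l h r') (k : Type) [Field k] (κ : ZMod l →+* k)
    (ι : 𝓞 (AlgebraicClosure F) →+* k) (hι : ι (l : 𝓞 (AlgebraicClosure F)) = 0)
    (B₁ : Matrix (Fin 3) (Fin 1) k) (A₁ : Gal F → Matrix (Fin 1) (Fin 1) k)
    (B₂ : Matrix (Fin 3) (Fin 2) k) (A₂ : Gal F → Matrix (Fin 2) (Fin 2) k)
    (Y : Matrix (Fin 2) (Fin 1) k) (h₁ : IsSub (mapk κ (res r')) B₁ A₁)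
    (h₂ : IsSub (mapk κ (res r')) B₂ A₂) (hY : B₁ = B₂ * Y) : FDat M l := by
  have h₃ : IsSub (mapk κ (res r')) 1 (mapk κ (res r')) := IsSub.whole _
  set δ : Fin 3 → Gal F →* kˣ := ![subDet h₁, subDet h₂ / subDet h₁, subDet h₃ / subDet h₂] with hδ
  have hδ0 : ∀ g, ((δ 0 g : kˣ) : k) = (A₁ g).det := fun g => rfl
  have hδ1 : ∀ g, ((δ 1 g : kˣ) : k) = (A₂ g).det / (A₁ g).det := fun g => by
    have : δ 1 g = subDet h₂ g / subDet h₁ g := rfl
    rw [this, Units.val_div_eq_div_val, subDet_coe, subDet_coe]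
  have hδ2 : ∀ g, ((δ 2 g : kˣ) : k) = (mapk κ (res r') g).det / (A₂ g).det := fun g => by
    have : δ 2 g = subDet h₃ g / subDet h₂ g := rfl
    rw [this, Units.val_div_eq_div_val, subDet_coe, subDet_coe]
  -- the characteristic polynomials
  have hcp : ∀ g, (mapk κ (res r') g).charpoly =
      ∏ i, (Polynomial.X - C ((δ i g : kˣ) : k)) := by
    intro g
    obtain ⟨C₁, hC₁⟩ := h₁.1
    obtain ⟨C₂, hC₂⟩ := h₂.1
    rw [Fin.prod_univ_three, hδ0, hδ1, hδ2]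
    exact flag_charpoly _ B₁ (A₁ g) B₂ (A₂ g) Y C₁ C₂ hC₁ hC₂ (h₁.2 g) (h₂.2 g) hY
      (subDet_ne h₁ g) (subDet_ne h₂ g)
  have hcp2 : ∀ g, (res (M.ρ l) g).charpoly.map κ =
      ∏ i, (Polynomial.X - C ((δ i g : kˣ) : k)) := by
    intro g
    rw [← hcp, eqvQ_res_charpoly hE, ← Matrix.charpoly_map]
    rfl
  -- the exponents
  have hf1 := hflt k κ ι 1 2 B₁ A₁ B₂ A₂ Y h₁ h₂ hY
  have hf2 := hflt k κ ι 2 3 B₂ A₂ 1 (mapk κ (res r')) B₂ h₂ h₃ (by rw [Matrix.one_mul])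
  choose! J1 J1' hJ1 hJ1' using hf1
  choose! J2 J2' hJ2 hJ2' using hf2
  choose vt hvt hlv using plOf (F := F) ι l hι
  choose s hs hs' using fun τ => perm3 (J1 (vt τ) τ) (J1' (vt τ) τ) (hJ1 (vt τ) (hlv τ) τ).1
    (hJ1 (vt τ) (hlv τ) τ).2.1 (hJ1 (vt τ) (hlv τ) τ).2.2
  refine ⟨k, inferInstance, κ, ι, δ, fun i τ => h (s τ i), fun τ => ⟨s τ, fun i => rfl⟩, ?_, ?_, ?_,
    hcp2⟩
  · -- open kernels
    intro i
    refine open_of_res (eqvQ_cont hE (M.continuous l)) _ ?_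
    intro g hg
    have hg' : mapk κ (res r') g = 1 := by
      show (κ.mapMatrix (m := Fin 3)) (res r' g) = 1
      rw [hg, map_one]
    rw [MonoidHom.mem_ker]
    have e1 := subDet_of_one h₁ g hg'
    have e2 := subDet_of_one h₂ g hg'
    have e3 := subDet_of_one h₃ g hg'
    fin_cases i
    · exact e1
    · show subDet h₂ g / subDet h₁ g = 1
      rw [e1, e2, div_one]
    · show subDet h₃ g / subDet h₂ g = 1
      rw [e2, e3, div_one]
  · -- inertia away from `l`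
    intro i v hv 𝔓 h𝔓 σ hσ
    obtain ⟨p, f, hp, -, -, hO, hpv⟩ := (hOVP F).2.2.2.1 v 𝔓 h𝔓
    have hpl : p ≠ l := by
      rintro rfl
      exact hv hpv
    have h1 := inr_unip M l hE p hp hpl 𝔓 hO σ hσ
    have h2 : (mapk κ (res r') σ - 1) ^ 3 = 0 := by
      have h3 := congrArg (κ.mapMatrix (m := Fin 3)) h1
      rw [map_pow, map_sub, map_one, map_zero] at h3
      exact h3
    apply Units.ext
    rw [Units.val_one]
    refine unip_root _ h2 _ ?_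
    rw [hcp, IsRoot.def, eval_prod]
    refine Finset.prod_eq_zero (Finset.mem_univ i) ?_
    rw [eval_sub, eval_X, eval_C, sub_self]
  · -- inertia at `l`
    intro i v hv π hπ hπ2 𝔓 h𝔓 σ hσ u hu hT
    obtain ⟨a1, a2⟩ := hJ1' v hv π hπ hπ2 𝔓 h𝔓 σ hσ u hu hT
    obtain ⟨-, a3⟩ := hJ2' v hv π hπ hπ2 𝔓 h𝔓 σ hσ u hu hT
    have hvv : ∀ τ, RingHom.ker (ι.comp (RingOfIntegers.mapRingHom τ)) = v.asIdeal → vt τ = v := by
      intro τ hτ
      apply IsDedekindDomain.HeightOneSpectrum.ext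
      rw [← hvt τ, hτ]
    set t : Fin 3 → k := fun i => tmp ι v (fun τ => h (s τ i)) u with ht
    have b1 : tmp ι v (fun τ => ∑ j ∈ J1 v τ, h j) u = t 0 := by
      refine tmp_congr ι v _ _ u fun τ hτ => ?_
      rw [← hvv τ hτ, hs τ, Finset.sum_singleton]
    have b2 : tmp ι v (fun τ => ∑ j ∈ J1' v τ, h j) u = t 0 * t 1 := by
      rw [ht, ← tmp_add]
      refine tmp_congr ι v _ _ u fun τ hτ => ?_
      rw [← hvv τ hτ, hs' τ, Finset.sum_pair]
      intro h5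
      exact absurd ((s τ).injective h5) (by decide)
    have b3 : tmp ι v (fun τ => ∑ j ∈ J2' v τ, h j) u = t 0 * t 1 * t 2 := by
      rw [ht, ← tmp_add, ← tmp_add]
      refine tmp_congr ι v _ _ u fun τ hτ => ?_
      rw [card3 _ (hJ2 v hv τ).2.2, ← Equiv.sum_comp (s τ), Fin.sum_univ_three]
    rw [b1] at a1
    rw [b2] at a2
    rw [b3] at a3
    have n1 := subDet_ne h₁ σ
    have n2 := subDet_ne h₂ σ
    fin_cases i
    · show ((δ 0 σ : kˣ) : k) * t 0 = 1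
      rw [hδ0]
      exact a1
    · show ((δ 1 σ : kˣ) : k) * t 1 = 1
      rw [hδ1]
      have : (A₂ σ).det / (A₁ σ).det * t 1 = ((A₂ σ).det * (t 0 * t 1)) / ((A₁ σ).det * t 0) := by
        have ht0 : t 0 ≠ 0 := right_ne_zero_of_mul_eq_one a1
        field_simp
      rw [this, a2, a1, div_one]
    · show ((δ 2 σ : kˣ) : k) * t 2 = 1
      rw [hδ2]
      have : (mapk κ (res r') σ).det / (A₂ σ).det * t 2 =
          ((mapk κ (res r') σ).det * (t 0 * t 1 * t 2)) / ((A₂ σ).det * (t 0 * t 1)) := by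
        have ht0 : t 0 * t 1 ≠ 0 := right_ne_zero_of_mul_eq_one a2
        have ht1 : t 0 ≠ 0 := left_ne_zero_of_mul ht0
        have ht2 : t 1 ≠ 0 := right_ne_zero_of_mul ht0
        field_simp
      rw [this, a3, a2, div_one]

end

end Pool.Agent.Helper61.REC
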