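import Mathlib

/-!
# Joint eigenvalues of two commuting matrices
-/

set_option autoImplicit false

open Polynomial

namespace Pool.Agent.Helper61.REC

/-- common eigenvector -/
theorem jt_vec {K : Type} [Field K] [IsAlgClosed K] {ι : Type} [Fintype ι] [DecidableEq ι]
    [Nonempty ι] (X Y : Matrix ι ι K) (h : X * Y = Y * X) :
    ∃ (v : ι → K) (a b : K), v ≠ 0 ∧ X.mulVec v = a • v ∧ Y.mulVec v = b • v := by
  let f : Module.End K (ι → K) := Matrix.toLin' X
  let g : Module.End K (ι → K) := Matrix.toLin' Y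
  obtain ⟨a, ha⟩ := Module.End.exists_eigenvalue f
  let E := Module.End.eigenspace f a
  have hgE : ∀ x ∈ E, g x ∈ E := by
    intro x hx
    rw [Module.End.mem_eigenspace_iff] at hx ⊢
    have h1 : f x = X.mulVec x := Matrix.toLin'_apply X x
    have h2 : g x = Y.mulVec x := Matrix.toLin'_apply Y x
    have h3 : f (g x) = X.mulVec (Y.mulVec x) := by rw [h2]; exact Matrix.toLin'_apply X _
    rw [h3, Matrix.mulVec_mulVec, h, ← Matrix.mulVec_mulVec, ← h1, hx, Matrix.mulVec_smul, h2]
  have : Nontrivial E := Submodule.nontrivial_iff_ne_bot.2 ha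
  obtain ⟨b, hb⟩ := Module.End.exists_eigenvalue (g.restrict hgE)
  obtain ⟨v, hv⟩ := hb.exists_hasEigenvector
  refine ⟨v, a, b, ?_, ?_, ?_⟩
  · intro h0
    exact hv.2 (Subtype.ext h0)
  · have := Module.End.mem_eigenspace_iff.1 v.2
    rwa [Matrix.toLin'_apply] at this
  · have h1 := congrArg Subtype.val hv.apply_eq_smul
    rw [LinearMap.restrict_apply] at h1
    have h2 : g (v : ι → K) = b • (v : ι → K) := h1
    rwa [Matrix.toLin'_apply] at h2

/-- powers of block triangular matrices -/
theorem jt_pow {K : Type} [Field K] {m n : Type} [Fintype m] [Fintype n] [DecidableEq m]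
    [DecidableEq n] (A : Matrix m m K) (B : Matrix m n K) (D : Matrix n n K) (i : ℕ) :
    ∃ B' : Matrix m n K,
      (Matrix.fromBlocks A B 0 D) ^ i = Matrix.fromBlocks (A ^ i) B' 0 (D ^ i) := by
  induction i with
  | zero => exact ⟨0, by rw [pow_zero, pow_zero, pow_zero, Matrix.fromBlocks_one]⟩
  | succ i ih =>
    obtain ⟨B', hB'⟩ := ih
    refine ⟨A ^ i * B + B' * D, ?_⟩
    rw [pow_succ, hB', Matrix.fromBlocks_multiply, pow_succ, pow_succ]
    simp

theorem jt_aux {K : Type} [Field K] [IsAlgClosed K] (n : ℕ) : ∀ (ι : Type) [Fintype ι]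
    [DecidableEq ι], Fintype.card ι = n → ∀ X Y : Matrix ι ι K, X * Y = Y * X →
    ∃ la al : ι → K, (∀ i s : ℕ, (X ^ i * Y ^ s).trace = ∑ b, la b ^ i * al b ^ s) ∧
      X.charpoly = ∏ b, (Polynomial.X - C (la b)) ∧
      Y.charpoly = ∏ b, (Polynomial.X - C (al b)) := by
  induction n with
  | zero =>
    intro ι _ _ hc X Y _
    have : IsEmpty ι := Fintype.card_eq_zero_iff.1 hc
    refine ⟨fun _ => 0, fun _ => 0, fun i s => ?_, ?_, ?_⟩
    · rw [Matrix.trace, Finset.univ_eq_empty, Finset.sum_empty, Finset.sum_empty]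
    · rw [Matrix.charpoly, Matrix.det_isEmpty, Finset.univ_eq_empty, Finset.prod_empty]
    · rw [Matrix.charpoly, Matrix.det_isEmpty, Finset.univ_eq_empty, Finset.prod_empty]
  | succ n IH =>
    intro ι _ _ hc X Y hXY
    have : Nonempty ι := Fintype.card_pos_iff.1 (by omega)
    obtain ⟨v, a, b, hv0, hXv, hYv⟩ := jt_vec X Y hXY
    obtain ⟨i₀, hi₀⟩ : ∃ i, v i ≠ 0 := by
      by_contra hcon
      push Not at hcon
      exact hv0 (funext hcon)
    let P : Matrix ι ι K := (1 : Matrix ι ι K).updateCol i₀ v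
    have hdet : P.det = v i₀ := by
      have h1 := Matrix.cramer_apply (1 : Matrix ι ι K) v i₀
      rw [Matrix.cramer_one] at h1
      exact h1.symm
    have hunit : IsUnit P.det := by rw [hdet]; exact isUnit_iff_ne_zero.2 hi₀
    let Q : Matrix ι ι K := P⁻¹
    have hPQ : P * Q = 1 := Matrix.mul_nonsing_inv P hunit
    have hQP : Q * P = 1 := Matrix.nonsing_inv_mul P hunit
    have hPe : P.mulVec (Pi.single i₀ 1) = v := by
      rw [Matrix.mulVec_single_one]
      ext i
      show P i i₀ = v i
      exact Matrix.updateCol_self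
    have hQv : Q.mulVec v = Pi.single i₀ 1 := by
      rw [← hPe, Matrix.mulVec_mulVec, hQP, Matrix.one_mulVec]
    let e : {i : ι // i = i₀} ⊕ {i : ι // ¬ i = i₀} ≃ ι := Equiv.sumCompl (fun i => i = i₀)
    let Φ : Matrix ι ι K → Matrix ({i : ι // i = i₀} ⊕ {i : ι // ¬ i = i₀})
        ({i : ι // i = i₀} ⊕ {i : ι // ¬ i = i₀}) K := fun M => (Q * M * P).submatrix e e
    have hmul : ∀ M N, Φ (M * N) = Φ M * Φ N := by
      intro M N
      show (Q * (M * N) * P).submatrix e e
        = (Q * M * P).submatrix e e * (Q * N * P).submatrix e e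
      rw [Matrix.submatrix_mul_equiv]
      congr 1
      calc Q * (M * N) * P = Q * M * 1 * N * P := by
            rw [Matrix.mul_one]; simp only [Matrix.mul_assoc]
        _ = Q * M * P * (Q * N * P) := by rw [← hPQ]; simp only [Matrix.mul_assoc]
    have hone : Φ 1 = 1 := by
      show (Q * 1 * P).submatrix e e = 1
      rw [Matrix.mul_one, hQP, Matrix.submatrix_one_equiv]
    have hpow : ∀ M (i : ℕ), Φ (M ^ i) = (Φ M) ^ i := by
      intro M i
      induction i with
      | zero => rw [pow_zero, pow_zero, hone]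
      | succ i ih => rw [pow_succ, pow_succ, hmul, ih]
    have htr : ∀ M, (Φ M).trace = M.trace := by
      intro M
      have h1 : (Φ M).trace = (Q * M * P).trace := by
        show ∑ x, (Q * M * P) (e x) (e x) = ∑ x, (Q * M * P) x x
        exact Equiv.sum_comp e (fun x => (Q * M * P) x x)
      rw [h1, Matrix.trace_mul_comm, ← Matrix.mul_assoc, hPQ, Matrix.one_mul]
    have hcp : ∀ M, (Φ M).charpoly = M.charpoly := by
      intro M
      have h1 : (Φ M).charpoly = (Q * M * P).charpoly := by
        have := Matrix.charpoly_reindex e.symm (Q * M * P)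
        rw [← this]
        rfl
      rw [h1]
      let u : (Matrix ι ι K)ˣ := ⟨P, Q, hPQ, hQP⟩
      exact Matrix.charpoly_units_conj' u M
    have hcol : ∀ (M : Matrix ι ι K) (c : K), M.mulVec v = c • v → ∃ B D,
        Φ M = Matrix.fromBlocks (Matrix.diagonal fun _ => c) B 0 D := by
      intro M c hM
      have h1 : ∀ i, (Q * M * P) i i₀ = c * (Pi.single i₀ (1 : K) : ι → K) i := by
        intro i
        have h2 : (Q * M * P).mulVec (Pi.single i₀ 1) = c • (Pi.single i₀ (1 : K) : ι → K) := by
          rw [← Matrix.mulVec_mulVec, hPe, ← Matrix.mulVec_mulVec, hM, Matrix.mulVec_smul, hQv]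
        rw [Matrix.mulVec_single_one] at h2
        exact congrFun h2 i
      refine ⟨(Φ M).toBlocks₁₂, (Φ M).toBlocks₂₂, ?_⟩
      rw [← Matrix.fromBlocks_toBlocks (Φ M)]
      congr 1
      · ext x y
        have hx : x = y := Subtype.ext (x.2.trans y.2.symm)
        subst hx
        rw [Matrix.diagonal_apply_eq]
        show (Q * M * P) x.1 x.1 = c
        rw [x.2, h1, Pi.single_eq_same, mul_one]
      · ext x y
        show (Q * M * P) x.1 y.1 = 0
        rw [y.2, h1, Pi.single_eq_of_ne x.2, mul_zero]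
    obtain ⟨BX, DX, hX⟩ := hcol X a hXv
    obtain ⟨BY, DY, hY⟩ := hcol Y b hYv
    have hD : DX * DY = DY * DX := by
      have h1 : Φ X * Φ Y = Φ Y * Φ X := by rw [← hmul, ← hmul, hXY]
      rw [hX, hY, Matrix.fromBlocks_multiply, Matrix.fromBlocks_multiply] at h1
      have h2 := congrArg Matrix.toBlocks₂₂ h1
      simpa using h2
    have hcard : Fintype.card {i : ι // ¬ i = i₀} = n := by
      rw [Fintype.card_subtype_compl, Fintype.card_subtype_eq, hc]
      rfl
    obtain ⟨la', al', hs, hcX, hcY⟩ := IH _ hcard DX DY hD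
    haveI : Unique {i : ι // i = i₀} := ⟨⟨⟨i₀, rfl⟩⟩, fun x => Subtype.ext x.2⟩
    let la : ι → K := fun i => if hi : i = i₀ then a else la' ⟨i, hi⟩
    let al : ι → K := fun i => if hi : i = i₀ then b else al' ⟨i, hi⟩
    have hla : ∀ x : {i : ι // ¬ i = i₀}, la x.1 = la' x := fun x => dif_neg x.2
    have hal : ∀ x : {i : ι // ¬ i = i₀}, al x.1 = al' x := fun x => dif_neg x.2
    have hla0 : ∀ x : {i : ι // i = i₀}, la x.1 = a := fun x => dif_pos x.2
    have hal0 : ∀ x : {i : ι // i = i₀}, al x.1 = b := fun x => dif_pos x.2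
    have hcc : ∀ c : K, (Matrix.diagonal fun _ : {i : ι // i = i₀} => c).charpoly
        = Polynomial.X - C c := by
      intro c
      rw [Matrix.charpoly, Matrix.det_unique, Matrix.charmatrix_apply_eq,
        Matrix.diagonal_apply_eq]
    refine ⟨la, al, fun i s => ?_, ?_, ?_⟩
    · rw [← htr, hmul, hpow, hpow, hX, hY]
      obtain ⟨B1, h1⟩ := jt_pow (Matrix.diagonal fun _ : {i : ι // i = i₀} => a) BX DX i
      obtain ⟨B2, h2⟩ := jt_pow (Matrix.diagonal fun _ : {i : ι // i = i₀} => b) BY DY s
      have htb : ∀ (A : Matrix {i : ι // i = i₀} {i : ι // i = i₀} K) (B C : Matrix _ _ K)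
          (D : Matrix {i : ι // ¬ i = i₀} {i : ι // ¬ i = i₀} K),
          (Matrix.fromBlocks A B C D).trace = A.trace + D.trace := by
        intro A B C D
        simp [Matrix.trace, Fintype.sum_sum_type]
      rw [h1, h2, Matrix.fromBlocks_multiply, htb]
      rw [← Equiv.sum_comp e, Fintype.sum_sum_type]
      congr 1
      · rw [Fintype.sum_unique, Matrix.mul_zero, add_zero, Matrix.diagonal_pow,
          Matrix.diagonal_pow, Matrix.diagonal_mul_diagonal, Matrix.trace_diagonal,
          Fintype.sum_unique]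
        show a ^ i * b ^ s = la _ ^ i * al _ ^ s
        rw [show la (e (Sum.inl default)) = a from hla0 default,
          show al (e (Sum.inl default)) = b from hal0 default]
      · rw [Matrix.zero_mul, zero_add, hs]
        refine Finset.sum_congr rfl fun x _ => ?_
        rw [show la (e (Sum.inr x)) = la' x from hla x,
          show al (e (Sum.inr x)) = al' x from hal x]
    · rw [← hcp X, hX, Matrix.charpoly_fromBlocks_zero₂₁, hcX, hcc, ← Equiv.prod_comp e,
        Fintype.prod_sum_type]
      have h3 : ∏ x : {i : ι // i = i₀}, (Polynomial.X - C (la (e (Sum.inl x))))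
          = Polynomial.X - C a := by
        rw [Fintype.prod_unique, show la (e (Sum.inl default)) = a from hla0 default]
      rw [h3]
      congr 1
      refine Finset.prod_congr rfl fun x _ => ?_
      rw [show la (e (Sum.inr x)) = la' x from hla x]
    · rw [← hcp Y, hY, Matrix.charpoly_fromBlocks_zero₂₁, hcY, hcc, ← Equiv.prod_comp e,
        Fintype.prod_sum_type]
      have h3 : ∏ x : {i : ι // i = i₀}, (Polynomial.X - C (al (e (Sum.inl x))))
          = Polynomial.X - C b := by
        rw [Fintype.prod_unique, show al (e (Sum.inl default)) = b from hal0 default]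
      rw [h3]
      congr 1
      refine Finset.prod_congr rfl fun x _ => ?_
      rw [show al (e (Sum.inr x)) = al' x from hal x]

end Pool.Agent.Helper61.REC
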