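import Pool.Agent.Helper27.REC.WDT
import Pool.Agent.Helper72.REC.CPW
import Pool.Agent.Helper61.REC.JT

/-!
# JEV: joint eigenvalues of the coefficient endomorphism and of a Frobenius element
-/

set_option autoImplicit false

open scoped Classical
open NumberField Polynomial

namespace Pool.Agent.Helper61.REC

open _root_.REC MU

/-- the roots of a monic integral polynomial come from algebraic integers -/
theorem jev_root {Ω K : Type} [Field Ω] [IsAlgClosed Ω] [Field K] (ψ : Ω →+* K) (P : ℤ[X])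
    (hP : P.Monic) (z : K) (hz : eval₂ (Int.castRingHom K) z P = 0) :
    ∃ r : 𝓞 Ω, aeval r P = 0 ∧ ψ (r : Ω) = z := by
  have hsp := IsAlgClosed.splits (P.map (Int.castRingHom Ω))
  have hmon : (P.map (Int.castRingHom Ω)).Monic := hP.map _
  have h1 := hsp.eq_prod_roots_of_monic hmon
  have h2 : (P.map (Int.castRingHom Ω)).map ψ = P.map (Int.castRingHom K) := by
    rw [Polynomial.map_map]
    congr 1
    exact RingHom.ext_int _ _
  have h3 : eval z ((P.map (Int.castRingHom Ω)).map ψ) = 0 := by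
    rw [h2, eval_map]; exact hz
  rw [h1, Polynomial.map_multiset_prod, eval_multiset_prod, Multiset.map_map, Multiset.map_map,
    Multiset.prod_eq_zero_iff, Multiset.mem_map] at h3
  obtain ⟨x, hx, hxz⟩ := h3
  have hx0 : eval₂ (Int.castRingHom Ω) x P = 0 := by
    have := (Polynomial.mem_roots'.1 hx).2
    rwa [IsRoot.def, eval_map] at this
  have hint : IsIntegral ℤ x := ⟨P, hP, by rw [← hx0]; congr 1⟩
  obtain ⟨r, hr⟩ : ∃ r : 𝓞 Ω, algebraMap (𝓞 Ω) Ω r = x := ⟨⟨x, hint⟩, rfl⟩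
  refine ⟨r, ?_, ?_⟩
  · apply FaithfulSMul.algebraMap_injective (𝓞 Ω) Ω
    rw [map_zero, ← Polynomial.aeval_algebraMap_apply, hr, aeval_def]
    exact hx0
  · have h5 : z - ψ x = 0 := by
      simpa using hxz
    rw [← hr] at h5
    exact (sub_eq_zero.1 h5).symm

theorem st_JEV : ST_JEV := by
  intro F _ _ S hS n w h M R d om hact p hp hpS 𝔓 h𝔓 k σ hk hσ
  let Ω := AlgebraicClosure F
  -- the integers
  have hA : ∀ i s : ℕ, ∃ a : ℤ, ∀ (l : ℕ) [Fact l.Prime], l ≠ p →
      (om.map (Int.castRingHom ℤ_[l]) ^ i *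
        (M.ρ l σ⁻¹ : Matrix (Fin n) (Fin n) ℤ_[l]) ^ s).trace = a := by
    intro i s
    rcases Nat.eq_zero_or_pos s with rfl | hs
    · refine ⟨(om ^ i).trace, fun l _ _ => ?_⟩
      rw [pow_zero, mul_one]
      have h1 : om.map (Int.castRingHom ℤ_[l]) ^ i = (om ^ i).map (Int.castRingHom ℤ_[l]) :=
        ((Int.castRingHom ℤ_[l]).mapMatrix.map_pow om i).symm
      rw [h1]
      exact (AddMonoidHom.map_trace (Int.castRingHom ℤ_[l]) (om ^ i)).symm
    · have hcp : CongPow 𝔓 (p ^ (k * s)) ((σ ^ s : Gal F)) := by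
        rw [pow_mul]
        exact H72.congPow_pow 𝔓 (p ^ k) σ hσ s
      obtain ⟨a, ha⟩ := hact.trace p hp hpS 𝔓 h𝔓 (k * s) (σ ^ s) (Nat.mul_pos hk hs) hcp i
      refine ⟨a, fun l _ hl => ?_⟩
      rw [← ha l hl]
      congr 2
      rw [← Units.val_pow_eq_pow_val, ← map_pow, inv_pow]
  -- the prime `l₁`
  obtain ⟨l₁, hl₁, hl₁p⟩ : ∃ l₁ : ℕ, l₁.Prime ∧ l₁ ≠ p := by
    by_cases h2 : p = 2
    · exact ⟨3, Nat.prime_three, by rw [h2]; decide⟩
    · exact ⟨2, Nat.prime_two, fun h3 => h2 h3.symm⟩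
  have : Fact l₁.Prime := ⟨hl₁⟩
  let K := AlgebraicClosure ℚ_[l₁]
  let κ : ℤ_[l₁] →+* K := (algebraMap ℚ_[l₁] K).comp (algebraMap ℤ_[l₁] ℚ_[l₁])
  have : CharZero K := charZero_of_injective_algebraMap (algebraMap ℚ_[l₁] K).injective
  let X : Matrix (Fin n) (Fin n) K := om.map (Int.castRingHom K)
  let Y : Matrix (Fin n) (Fin n) K := (M.ρ l₁ σ⁻¹ : Matrix (Fin n) (Fin n) ℤ_[l₁]).map κ
  have hXκ : X = (om.map (Int.castRingHom ℤ_[l₁])).map κ := by
    rw [Matrix.map_map]
    congr 1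
  have hXY : X * Y = Y * X := by
    rw [hXκ]
    have h1 := congrArg κ.mapMatrix (hact.comm l₁ σ⁻¹)
    rw [map_mul, map_mul] at h1
    exact h1
  obtain ⟨la', al', hs, hcX, hcY⟩ := jt_aux n (Fin n) (Fintype.card_fin n) X Y hXY
  have htr : ∀ i s : ℕ, ∀ a : ℤ, (om.map (Int.castRingHom ℤ_[l₁]) ^ i *
        (M.ρ l₁ σ⁻¹ : Matrix (Fin n) (Fin n) ℤ_[l₁]) ^ s).trace = a →
      ∑ b, la' b ^ i * al' b ^ s = (a : K) := by
    intro i s a ha
    rw [← hs, hXκ]
    have h1 : ((om.map (Int.castRingHom ℤ_[l₁])).map κ) ^ i * Y ^ s =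
        κ.mapMatrix (om.map (Int.castRingHom ℤ_[l₁]) ^ i *
        (M.ρ l₁ σ⁻¹ : Matrix (Fin n) (Fin n) ℤ_[l₁]) ^ s) := by
      rw [map_mul, map_pow, map_pow]
      rfl
    have h2 : (κ.mapMatrix (om.map (Int.castRingHom ℤ_[l₁]) ^ i *
        (M.ρ l₁ σ⁻¹ : Matrix (Fin n) (Fin n) ℤ_[l₁]) ^ s)).trace = κ (a : ℤ_[l₁]) := by
      rw [← ha]
      exact (AddMonoidHom.map_trace κ _).symm
    rw [h1, h2, map_intCast]
  -- the embedding of `Ω`
  have : Algebra.IsAlgebraic ℚ F := inferInstance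
  have : Algebra.IsAlgebraic ℚ Ω := Algebra.IsAlgebraic.trans ℚ F Ω
  let ψ : Ω →ₐ[ℚ] K := IsAlgClosed.lift
  -- `la`
  have hcp : om.charpoly = R ^ d :=
    Pool.Agent.Helper27.REC.charpoly_eq_pow R om hact.monic hact.irr hact.root hact.rank
  have hXcp : X.charpoly = (R.map (Int.castRingHom K)) ^ d := by
    have h1 : X.charpoly = om.charpoly.map (Int.castRingHom K) :=
      Matrix.charpoly_map om (Int.castRingHom K)
    rw [h1, hcp, Polynomial.map_pow]
  have hla : ∀ b, ∃ r : 𝓞 Ω, aeval r R = 0 ∧ ψ (r : Ω) = la' b := by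
    intro b
    refine jev_root (ψ : Ω →+* K) R hact.monic (la' b) ?_
    have h1 : eval (la' b) X.charpoly = 0 := by
      rw [hcX, eval_prod]
      exact Finset.prod_eq_zero (Finset.mem_univ b) (by simp)
    rw [hXcp, eval_pow] at h1
    have h3 := eq_zero_of_pow_eq_zero h1
    rwa [eval_map] at h3
  have hal : ∀ b, ∃ r : 𝓞 Ω, ψ (r : Ω) = al' b := by
    intro b
    obtain ⟨P, -, hP⟩ := M.pure p hp hpS 𝔓 h𝔓 k σ hk hσ
    have h0 := hP l₁ hl₁p
    have hinj : Function.Injective (Int.castRingHom ℤ_[l₁]) := Int.cast_injective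
    have hPm : P.Monic := by
      have h1 : (P.map (Int.castRingHom ℤ_[l₁])).Monic := by
        rw [← h0]; exact Matrix.charpoly_monic _
      exact Polynomial.monic_of_injective hinj h1
    have hYcp : Y.charpoly = P.map (Int.castRingHom K) := by
      have h1 : Y.charpoly = ((M.ρ l₁ σ⁻¹ : Matrix (Fin n) (Fin n) ℤ_[l₁])).charpoly.map κ :=
        Matrix.charpoly_map _ κ
      rw [h1, h0, Polynomial.map_map, RingHom.ext_int (κ.comp (Int.castRingHom ℤ_[l₁]))
        (Int.castRingHom K)]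
    obtain ⟨r, -, hr⟩ := jev_root (ψ : Ω →+* K) P hPm (al' b) (by
      have h1 : eval (al' b) Y.charpoly = 0 := by
        rw [hcY, eval_prod]
        exact Finset.prod_eq_zero (Finset.mem_univ b) (by simp)
      rwa [hYcp, eval_map] at h1)
    exact ⟨r, hr⟩
  choose la hla1 hla2 using hla
  choose al hal2 using hal
  have hinj : ∀ x y : 𝓞 Ω, ψ (x : Ω) = ψ (y : Ω) → x = y := by
    intro x y hxy
    exact FaithfulSMul.algebraMap_injective (𝓞 Ω) Ω (ψ.toRingHom.injective hxy)
  refine ⟨la, al, hla1, ?_, ?_⟩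
  · intro r hr
    have h1 : (Finset.univ.filter fun b => la b = r) =
        (Finset.univ.filter fun b => la' b = ψ (r : Ω)) := by
      ext b
      simp only [Finset.mem_filter, Finset.mem_univ, true_and]
      rw [← hla2 b]
      exact ⟨fun h => by rw [h], fun h => hinj _ _ h⟩
    rw [h1]
    set z : K := ψ (r : Ω) with hz
    have hcount : (Finset.univ.filter fun b => la' b = z).card = X.charpoly.rootMultiplicity z := by
      have h2 : (∏ b, (Polynomial.X - C (la' b))).roots = Finset.univ.val.map la' := by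
        rw [← Polynomial.roots_multiset_prod_X_sub_C (Finset.univ.val.map la'), Multiset.map_map]
        rfl
      rw [← Polynomial.count_roots, hcX, h2, Multiset.count_map]
      show Multiset.card (Finset.univ.val.filter fun b => la' b = z) = _
      congr 1
      refine Multiset.filter_congr fun b _ => ?_
      exact eq_comm
    have hsepQ : (R.map (Int.castRingHom ℚ)).Separable := hact.irr.separable
    have hsep : (R.map (Int.castRingHom K)).Separable := by
      have h3 := hsepQ.map (f := algebraMap ℚ K)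
      rwa [Polynomial.map_map, RingHom.ext_int ((algebraMap ℚ K).comp (Int.castRingHom ℚ))
        (Int.castRingHom K)] at h3
    have hroot : z ∈ (R.map (Int.castRingHom K)).roots := by
      rw [Polynomial.mem_roots (hact.monic.map _).ne_zero, IsRoot.def, eval_map]
      have h4 : eval₂ (Int.castRingHom Ω) (r : Ω) R = 0 := by
        have h5 := congrArg (algebraMap (𝓞 Ω) Ω) hr
        rw [map_zero, ← Polynomial.aeval_algebraMap_apply, aeval_def] at h5
        exact h5
      have h6 := congrArg ψ h4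
      rw [map_zero] at h6
      have h7 : ψ (eval₂ (Int.castRingHom Ω) (r : Ω) R)
          = eval₂ ((ψ : Ω →+* K).comp (Int.castRingHom Ω)) (ψ (r : Ω)) R :=
        Polynomial.hom_eval₂ R (Int.castRingHom Ω) (ψ : Ω →+* K) (r : Ω)
      rw [h7, RingHom.ext_int ((ψ : Ω →+* K).comp (Int.castRingHom Ω)) (Int.castRingHom K)] at h6
      exact h6
    rw [hcount, hXcp, ← Polynomial.count_roots, Polynomial.roots_pow, Multiset.count_nsmul,
      Multiset.count_eq_one_of_mem (Polynomial.nodup_roots hsep) hroot, mul_one]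
  · intro i s
    obtain ⟨a, ha⟩ := hA i s
    refine ⟨a, ?_, ha⟩
    apply hinj
    have h1 := htr i s a (ha l₁ hl₁p)
    show ψ (algebraMap (𝓞 Ω) Ω (∑ b, la b ^ i * al b ^ s))
      = ψ (algebraMap (𝓞 Ω) Ω ((a : ℤ) : 𝓞 Ω))
    rw [map_sum, map_sum, map_intCast, map_intCast, ← h1]
    refine Finset.sum_congr rfl fun b _ => ?_
    rw [map_mul, map_mul, map_pow, map_pow, map_pow, map_pow]
    rw [← hla2 b, ← hal2 b]

end Pool.Agent.Helper61.REC
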