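import Pool.Agent.Helper85.REC.Stmts6
import Pool.Agent.Helper3.MU.Base

set_option autoImplicit false

/-! REC, module PATC: the exponents are constant if `F` contains no CM field. -/

open scoped Classical
open NumberField Polynomial

namespace Pool.Agent.Helper61.REC

open _root_.REC
open Pool.Agent.Helper13.ZL (Pl q)
open MU

section

variable {F L : Type} [Field F] [NumberField F] [Field L] [NumberField L]

/-- the product of the conjugates -/
noncomputable def bt (e : (F →+* L) → ℕ) (x : 𝓞 F) : 𝓞 L :=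
  ∏ τ : F →+* L, RingOfIntegers.mapRingHom τ x ^ e τ

theorem bt_mul (e : (F →+* L) → ℕ) (x y : 𝓞 F) : bt e (x * y) = bt e x * bt e y := by
  unfold bt
  rw [← Finset.prod_mul_distrib]
  refine Finset.prod_congr rfl fun τ _ => ?_
  rw [map_mul, mul_pow]

theorem bt_one (e : (F →+* L) → ℕ) : bt e (1 : 𝓞 F) = 1 := by
  unfold bt
  refine Finset.prod_eq_one fun τ _ => ?_
  rw [map_one, one_pow]

theorem bt_pow (e : (F →+* L) → ℕ) (x : 𝓞 F) (k : ℕ) : bt e (x ^ k) = bt e x ^ k := by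
  induction k with
  | zero => rw [pow_zero, pow_zero, bt_one]
  | succ k ih => rw [pow_succ, pow_succ, bt_mul, ih]

omit [NumberField F] [NumberField L] in
theorem mapRingHom_coe (τ : F →+* L) (x : 𝓞 F) :
    ((RingOfIntegers.mapRingHom τ x : 𝓞 L) : L) = τ (x : F) := rfl

theorem bt_ne_zero (e : (F →+* L) → ℕ) (x : 𝓞 F) (hx : x ≠ 0) : bt e x ≠ 0 := by
  unfold bt
  refine Finset.prod_ne_zero_iff.2 fun τ _ => pow_ne_zero _ ?_
  intro h
  have h1 : τ (x : F) = 0 := by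
    rw [← mapRingHom_coe, h]
    rfl
  rw [map_eq_zero] at h1
  exact hx (RingOfIntegers.ext h1)

theorem bt_coe (e : (F →+* L) → ℕ) (x : 𝓞 F) :
    ((bt e x : 𝓞 L) : L) = ∏ τ : F →+* L, τ (x : F) ^ e τ := by
  unfold bt
  have h : ((∏ τ : F →+* L, RingOfIntegers.mapRingHom τ x ^ e τ : 𝓞 L) : L) =
      ∏ τ : F →+* L, ((RingOfIntegers.mapRingHom τ x ^ e τ : 𝓞 L) : L) :=
    map_prod (algebraMap (𝓞 L) L) _ _
  rw [h]
  refine Finset.prod_congr rfl fun τ _ => ?_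
  have h2 : ((RingOfIntegers.mapRingHom τ x ^ e τ : 𝓞 L) : L) =
      ((RingOfIntegers.mapRingHom τ x : 𝓞 L) : L) ^ e τ :=
    map_pow (algebraMap (𝓞 L) L) _ _
  rw [h2, mapRingHom_coe]

end

theorem st_PATC (hOVP : ST_OVP) : ST_PATC := by
  intro F L _ _ _ _ _ hne S hS n w h M hn hF e hrel
  obtain ⟨-, S', hSS', hR⟩ := hrel
  -- a prime
  obtain ⟨p, hpS', hp⟩ : ∃ p : ℕ, p ∉ S' ∧ p.Prime := by
    obtain ⟨p, hp1, hp2⟩ := Nat.exists_infinite_primes (S'.sup id + 1)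
    refine ⟨p, fun hm => ?_, hp2⟩
    have := Finset.le_sup (f := id) hm
    simp only [id] at this
    omega
  have hpS : p ∉ S := fun hm => hpS' (hSS' hm)
  obtain ⟨v, hpv⟩ : ∃ v : Pl F, (p : 𝓞 F) ∈ v.asIdeal := by
    have h1 : Ideal.span {(p : 𝓞 F)} ≠ ⊤ := by
      intro ht
      have h2 : (Ideal.absNorm (Ideal.span {(p : 𝓞 F)})) = 1 := by
        rw [ht, Ideal.absNorm_top]
      have h3 : Algebra.norm ℤ (p : 𝓞 F) = (p : ℤ) ^ Module.finrank ℤ (𝓞 F) := by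
        have := Algebra.norm_algebraMap (S := 𝓞 F) (p : ℤ)
        rwa [map_natCast] at this
      rw [Ideal.absNorm_span_singleton, h3, Int.natAbs_pow, Int.natAbs_natCast] at h2
      have h4 : 0 < Module.finrank ℤ (𝓞 F) := by
        rw [RingOfIntegers.rank]
        exact Module.finrank_pos
      have h5 : 1 < p ^ Module.finrank ℤ (𝓞 F) := Nat.one_lt_pow h4.ne' hp.one_lt
      omega
    obtain ⟨Q, hQ, hle⟩ := Ideal.exists_le_maximal _ h1
    have hpQ : (p : 𝓞 F) ∈ Q := hle (Ideal.mem_span_singleton_self _)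
    refine ⟨⟨Q, hQ.isPrime, ?_⟩, hpQ⟩
    rintro rfl
    rw [Ideal.mem_bot] at hpQ
    exact hp.ne_zero (by exact_mod_cast hpQ)
  obtain ⟨h1, h2, -, h4, -⟩ := hOVP F
  obtain ⟨𝔓, h𝔓⟩ := h1 v
  obtain ⟨σ, hσ⟩ := h2 v 𝔓 h𝔓
  obtain ⟨p', f, hp', hf, hq, hO, hpv'⟩ := h4 v 𝔓 h𝔓
  have hpp : p' = p := by
    by_contra hne'
    have hc : Nat.Coprime p' p := (Nat.coprime_primes hp' hp).2 hne'
    obtain ⟨a, b, hab⟩ := Nat.isCoprime_iff_coprime.2 hc
    have h5 : (1 : 𝓞 F) ∈ v.asIdeal := by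
      have h6 : (1 : 𝓞 F) = (a : 𝓞 F) * (p' : 𝓞 F) + (b : 𝓞 F) * (p : 𝓞 F) := by
        have := congrArg (fun t : ℤ => (t : 𝓞 F)) hab
        simp only [Int.cast_add, Int.cast_mul, Int.cast_natCast, Int.cast_one] at this
        exact this.symm
      rw [h6]
      exact Ideal.add_mem _ (Ideal.mul_mem_left _ _ hpv') (Ideal.mul_mem_left _ _ hpv)
    exact v.isPrime.ne_top ((Ideal.eq_top_iff_one _).2 h5)
  subst hpp
  -- the generator
  obtain ⟨x₀, hx₀⟩ : ∃ x₀ : 𝓞 F, Ideal.span {x₀} = v.asIdeal ^ classNumber F := by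
    have h5 : (v.asIdeal ^ classNumber F).IsPrincipal := by
      have h6 : v.asIdeal ∈ nonZeroDivisors (Ideal (𝓞 F)) :=
        mem_nonZeroDivisors_iff_ne_zero.2 v.ne_bot
      have h7 : ClassGroup.mk0 ((⟨v.asIdeal, h6⟩ : nonZeroDivisors (Ideal (𝓞 F))) ^ classNumber F) =
          1 := by
        rw [map_pow]
        exact pow_card_eq_one
      exact (ClassGroup.mk0_eq_one_iff (pow_mem h6 _)).1 h7
    obtain ⟨x₀, hx₀⟩ := h5
    exact ⟨x₀, hx₀.symm⟩
  have hcl : 0 < classNumber F := classNumber_pos F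
  have hx₀0 : x₀ ≠ 0 := by
    rintro rfl
    rw [Ideal.span_singleton_zero] at hx₀
    exact pow_ne_zero _ v.ne_bot hx₀.symm
  set m : ℕ := classNumber F * 2 with hm
  have hm0 : 0 < m := by omega
  -- the polynomial
  have hσm : CongPow 𝔓 (p' ^ (f * m)) (σ ^ m : Gal F) := by
    have := congPow_pow 𝔓 (q v) σ hσ m
    rw [hq, ← pow_mul] at this
    exact this
  have hfm : 1 ≤ f * m := Nat.mul_pos hf hm0
  obtain ⟨P, hP1, hP2⟩ := M.pure p' hp hpS 𝔓 hO (f * m) (σ ^ m) hfm hσm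
  have hroot : ∀ (u : (𝓞 F)ˣ) (k : ℕ),
      aeval (bt e (x₀ ^ 2) * bt e (u : 𝓞 F) ^ (2 * k)) P = 0 := by
    intro u k
    have h5 := hR v p' 𝔓 1 m σ (x₀ ^ 2 * (u : 𝓞 F) ^ (2 * k)) P hp hpS' hpv h𝔓 one_pos hm0
      (by rw [pow_one]; exact hσ) ?_ ?_ ?_
    · simp only [mul_one] at h5
      have h6 : bt e (x₀ ^ 2 * (u : 𝓞 F) ^ (2 * k)) =
          bt e (x₀ ^ 2) * bt e (u : 𝓞 F) ^ (2 * k) := by
        rw [bt_mul, bt_pow e (u : 𝓞 F)]
      rw [← h6]
      exact h5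
    · intro τ
      have h6 : ((x₀ ^ 2 * (u : 𝓞 F) ^ (2 * k) : 𝓞 F) : F) =
          ((x₀ : F) * ((u : 𝓞 F) : F) ^ k) ^ 2 := by
        rw [mul_pow, ← pow_mul, mul_comm k 2]
        rfl
      rw [h6, map_pow]
      refine sq_pos_of_ne_zero ?_
      rw [Ne, map_eq_zero]
      refine mul_ne_zero ?_ (pow_ne_zero _ (Units.coe_ne_zero u))
      exact fun h7 => hx₀0 (RingOfIntegers.ext h7)
    · rw [Ideal.span_singleton_mul_right_unit (u.isUnit.pow _), ← Ideal.span_singleton_pow, hx₀,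
        ← pow_mul]
    · intro l _ hl
      rw [← map_inv]
      exact hP2 l hl
  -- the polynomial is not zero
  have hP0 : P ≠ 0 := by
    rintro rfl
    obtain ⟨l, hl1, hl2⟩ := Nat.exists_infinite_primes (p' + 1)
    have : Fact l.Prime := ⟨hl2⟩
    have h5 := hP2 l (by omega)
    rw [Polynomial.map_zero] at h5
    exact (Matrix.charpoly_monic _).ne_zero h5
  have hβ0 : bt e (x₀ ^ 2) ≠ 0 := bt_ne_zero e _ (pow_ne_zero _ hx₀0)
  set Q : (𝓞 L)[X] := P.map (Int.castRingHom (𝓞 L)) with hQ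
  have hQ0 : Q ≠ 0 := by
    rw [hQ, Ne, Polynomial.map_eq_zero_iff]
    · exact hP0
    · exact (Int.castRingHom (𝓞 L)).injective_int
  have hQroot : ∀ z : 𝓞 L, aeval z P = 0 → z ∈ Q.roots.toFinset := by
    intro z hz
    rw [Multiset.mem_toFinset, mem_roots hQ0, IsRoot.def, hQ, eval_map]
    exact hz
  -- the units
  have hunit : ∀ u : (𝓞 F)ˣ, bt e (u : 𝓞 F) ^ (2 * (Q.roots.toFinset.card).factorial) = 1 := by
    intro u
    obtain ⟨k, hk, k', hk', hkk, heq⟩ := Finset.exists_ne_map_eq_of_card_lt_of_maps_to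
      (s := Finset.range (Q.roots.toFinset.card + 1)) (t := Q.roots.toFinset)
      (f := fun k => bt e (x₀ ^ 2) * bt e (u : 𝓞 F) ^ (2 * k)) (by rw [Finset.card_range]; omega)
      (fun k _ => hQroot _ (hroot u k))
    have hu0 : bt e (u : 𝓞 F) ≠ 0 := bt_ne_zero e _ u.ne_zero
    have key : ∀ a b : ℕ, a < b → b < Q.roots.toFinset.card + 1 →
        bt e (u : 𝓞 F) ^ (2 * a) = bt e (u : 𝓞 F) ^ (2 * b) →
        bt e (u : 𝓞 F) ^ (2 * (Q.roots.toFinset.card).factorial) = 1 := by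
      intro a b hab hb h5
      have h6 : bt e (u : 𝓞 F) ^ (2 * (b - a)) = 1 := by
        have h7 : 2 * b = 2 * a + 2 * (b - a) := by omega
        rw [h7, pow_add] at h5
        exact (mul_left_cancel₀ (pow_ne_zero _ hu0) (by rw [mul_one]; exact h5)).symm
      obtain ⟨c, hc⟩ := Nat.dvd_factorial (m := b - a) (n := Q.roots.toFinset.card)
        (by omega) (by omega)
      rw [hc, ← mul_assoc, pow_mul, h6, one_pow]
    have h5 := mul_left_cancel₀ hβ0 heq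
    rcases lt_or_gt_of_ne hkk with h6 | h6
    · exact key k k' h6 (Finset.mem_range.1 hk') h5
    · exact key k' k h6 (Finset.mem_range.1 hk) h5.symm
  -- the exponents are constant
  have hconst : ∀ τ τ' : F →+* L, (e τ : ℤ) = e τ' := by
    refine pat_pow hF (fun τ => (e τ : ℤ)) (2 * (Q.roots.toFinset.card).factorial)
      (Nat.mul_pos two_pos (Nat.factorial_pos _)).ne' ?_
    intro u
    have h5 := congrArg (fun z : 𝓞 L => (z : L)) (hunit u)
    have h6 : ((bt e (u : 𝓞 F) ^ (2 * (Q.roots.toFinset.card).factorial) : 𝓞 L) : L) =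
        ((bt e (u : 𝓞 F) : 𝓞 L) : L) ^ (2 * (Q.roots.toFinset.card).factorial) :=
      map_pow (algebraMap (𝓞 L) L) _ _
    simp only [h6, bt_coe] at h5
    simp only [zpow_natCast]
    exact h5
  obtain ⟨τ₀⟩ := hne
  have hne : Nonempty (F →+* L) := ⟨τ₀⟩
  refine ⟨e τ₀, fun τ => by exact_mod_cast hconst τ τ₀, ?_⟩
  -- purity
  obtain ⟨φ⟩ : Nonempty (L →+* ℂ) := inferInstance
  set N₀ : ℤ := Algebra.norm ℤ x₀ with hN₀
  have hnorm : φ ((bt e (x₀ ^ 2) : 𝓞 L) : L) = ((N₀ : ℂ) ^ 2) ^ e τ₀ := by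
    rw [bt_coe, map_prod]
    have h5 : ∏ τ : F →+* L, φ (τ ((x₀ ^ 2 : 𝓞 F) : F) ^ e τ) =
        (∏ τ : F →+* L, φ (τ (x₀ : F))) ^ (2 * e τ₀) := by
      rw [← Finset.prod_pow]
      refine Finset.prod_congr rfl fun τ _ => ?_
      have h6 : e τ = e τ₀ := by exact_mod_cast hconst τ τ₀
      have h7 : ((x₀ ^ 2 : 𝓞 F) : F) = (x₀ : F) ^ 2 := map_pow (algebraMap (𝓞 F) F) _ _
      rw [h6, h7, map_pow, map_pow, map_pow, ← pow_mul]
    have h8 : ∏ τ : F →+* L, φ (τ (x₀ : F)) = (N₀ : ℂ) := by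
      have h9 : ∏ τ : F →+* L, φ (τ (x₀ : F)) = ∏ ψ : F →+* ℂ, ψ (x₀ : F) :=
        Fintype.prod_bijective (fun τ : F →+* L => φ.comp τ) (comp_bij φ) _ _ fun τ => rfl
      have h10 := Algebra.norm_eq_prod_embeddings ℚ ℂ (x₀ : F)
      rw [← Algebra.coe_norm_int, map_intCast] at h10
      rw [h9, hN₀, h10]
      exact Fintype.prod_equiv (RingHom.equivRatAlgHom F ℂ) _ _ fun ψ => rfl
    rw [h5, h8, pow_mul]
  have hroot2 : (P.map (Int.castRingHom ℂ)).IsRoot (φ ((bt e (x₀ ^ 2) : 𝓞 L) : L)) := by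
    have h5 := hroot 1 0
    rw [mul_zero, pow_zero, mul_one] at h5
    have h6 := congrArg (fun z : 𝓞 L => φ (z : L)) h5
    have h7 : (φ.comp (algebraMap (𝓞 L) L)) (aeval (bt e (x₀ ^ 2)) P) = 0 := by
      rw [h5, map_zero]
    rw [IsRoot.def, eval_map]
    have h8 : (φ.comp (algebraMap (𝓞 L) L)).comp (algebraMap ℤ (𝓞 L)) = Int.castRingHom ℂ :=
      RingHom.ext_int _ _
    rw [aeval_def, hom_eval₂, h8] at h7
    exact h7
  have h5 := hP1 _ hroot2
  have h6 : ((N₀.natAbs : ℕ) : ℝ) = (p' : ℝ) ^ (f * classNumber F) := by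
    have h7 := congrArg Ideal.absNorm hx₀
    rw [Ideal.absNorm_span_singleton, map_pow] at h7
    have h8 : Ideal.absNorm v.asIdeal = q v := rfl
    rw [h8, hq, ← pow_mul] at h7
    rw [hN₀, h7]
    push_cast
    rfl
  have h7 : ‖φ ((bt e (x₀ ^ 2) : 𝓞 L) : L)‖ = (p' : ℝ) ^ (f * classNumber F * 2 * e τ₀) := by
    rw [Nat.cast_natAbs, Int.cast_abs] at h6
    rw [hnorm, norm_pow, norm_pow, Complex.norm_intCast, h6, ← pow_mul, ← pow_mul,
      mul_assoc (f * classNumber F)]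
  rw [h7, ← pow_mul] at h5
  have h8 : 1 < (p' : ℝ) := by exact_mod_cast hp.one_lt
  have h9 := pow_right_injective₀ (by positivity) h8.ne' h5
  have h10 : 0 < f * classNumber F := Nat.mul_pos hf hcl
  have h11 : (f * classNumber F) * (2 * (2 * e τ₀)) = (f * classNumber F) * (2 * w) := by
    rw [hm] at h9
    linarith
  have h12 := Nat.eq_of_mul_eq_mul_left h10 h11
  omega

end Pool.Agent.Helper61.REC
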