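import Pool.Agent.Helper85.REC.Stmts10

set_option autoImplicit false

/-! REC, module UNQ: one class of stable lattices if the reduction is liftable. -/

open scoped Classical

namespace Pool.Agent.Helper61.REC

open _root_.REC
open MU

/-- a basis of the column space of a singular matrix -/
theorem unq_rank {K : Type} [Field K] {n : ℕ} (M : Matrix (Fin n) (Fin n) K) (hM : M.det = 0) :
    ∃ (m : ℕ) (B : Matrix (Fin n) (Fin m) K) (E F : Matrix (Fin m) (Fin n) K)
      (F' : Matrix (Fin n) (Fin m) K), m < n ∧ M = B * E ∧ B = M * F' ∧ F * B = 1 := by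
  classical
  set W : Submodule K (Fin n → K) := LinearMap.range (Matrix.toLin' M) with hW
  set m := Module.finrank K W with hm
  have hlt : m < n := by
    by_contra hge
    have hle : m ≤ n := by
      have := Submodule.finrank_le W
      simpa using this
    have hmn : m = n := le_antisymm hle (not_lt.mp hge)
    have htop : W = ⊤ := by
      apply Submodule.eq_top_of_finrank_eq
      rw [← hm, hmn]; simp
    have hsurj : Function.Surjective (Matrix.toLin' M) := LinearMap.range_eq_top.mp htop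
    have hinj : Function.Injective (Matrix.toLin' M) :=
      LinearMap.injective_iff_surjective.mpr hsurj
    have : IsUnit M := by
      rw [← Matrix.mulVec_injective_iff_isUnit]
      intro x y hxy
      exact hinj (by simpa [Matrix.toLin'_apply] using hxy)
    rw [Matrix.isUnit_iff_isUnit_det, hM] at this
    exact not_isUnit_zero this
  let b : Module.Basis (Fin m) K W := Module.finBasis K W
  let B : Matrix (Fin n) (Fin m) K := fun i j => (b j : Fin n → K) i
  have hcol : ∀ k : Fin n, (fun i => M i k) ∈ W := by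
    intro k
    refine ⟨Pi.single k 1, ?_⟩
    ext i
    simp [Matrix.toLin'_apply]
  let E : Matrix (Fin m) (Fin n) K := fun j k => b.repr ⟨fun i => M i k, hcol k⟩ j
  have hpre : ∀ j : Fin m, ∃ v : Fin n → K, M.mulVec v = (b j : Fin n → K) := by
    intro j
    obtain ⟨v, hv⟩ := (b j).2
    exact ⟨v, by simpa [Matrix.toLin'_apply] using hv⟩
  choose v hv using hpre
  let F' : Matrix (Fin n) (Fin m) K := fun i j => v j i
  have h1 : M = B * E := by
    ext i k
    have := congrArg (fun w : W => (w : Fin n → K) i) (b.sum_repr ⟨fun i => M i k, hcol k⟩)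
    simp only [Submodule.coe_sum, Submodule.coe_smul, Finset.sum_apply, Pi.smul_apply,
      smul_eq_mul] at this
    rw [Matrix.mul_apply, ← this]
    exact Finset.sum_congr rfl fun j _ => mul_comm _ _
  have h2 : B = M * F' := by
    ext i j
    have := congrFun (hv j) i
    rw [Matrix.mul_apply]
    exact this.symm
  have hinjB : Function.Injective (Matrix.toLin' B) := by
    rw [injective_iff_map_eq_zero]
    intro x hx
    have hx' : ∑ j, x j • b j = 0 := by
      apply Subtype.ext
      ext i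
      have := congrFun hx i
      simp only [Matrix.toLin'_apply, Matrix.mulVec, dotProduct, Pi.zero_apply] at this
      simp only [Submodule.coe_sum, Submodule.coe_smul, Finset.sum_apply, Pi.smul_apply,
        smul_eq_mul, Submodule.coe_zero, Pi.zero_apply]
      rw [← this]
      exact Finset.sum_congr rfl fun j _ => mul_comm _ _
    have := Fintype.linearIndependent_iff.mp b.linearIndependent x hx'
    ext j; exact this j
  obtain ⟨φ, hφ⟩ := LinearMap.exists_leftInverse_of_injective (Matrix.toLin' B)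
    (LinearMap.ker_eq_bot.mpr hinjB)
  refine ⟨m, B, E, LinearMap.toMatrix' φ, F', hlt, h1, h2, ?_⟩
  have := congrArg LinearMap.toMatrix' hφ
  rw [LinearMap.toMatrix'_comp, LinearMap.toMatrix'_toLin', LinearMap.toMatrix'_id] at this
  exact this

/-- the product of an `n × m` matrix and an `m × n` matrix with `m < n` is singular -/
theorem unq_det {K : Type} [Field K] {n m : ℕ} (hmn : m < n) (B : Matrix (Fin n) (Fin m) K)
    (D : Matrix (Fin m) (Fin n) K) : (B * D).det = 0 := by
  by_contra hne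
  have h1 : (B * D).rank = n := by
    have : IsUnit (B * D) := (Matrix.isUnit_iff_isUnit_det _).mpr (isUnit_iff_ne_zero.mpr hne)
    rw [Matrix.rank_of_isUnit _ this, Fintype.card_fin]
  have h2 : (B * D).rank ≤ m := by
    refine (Matrix.rank_mul_le_left B D).trans ?_
    refine (Matrix.rank_le_width B)
  omega

section

variable {G : Type} [Group G] {n l : ℕ} [Fact l.Prime]

theorem unq_map_inj {a b : Matrix (Fin n) (Fin n) ℤ_[l]}
    (h : a.map (algebraMap ℤ_[l] ℚ_[l]) = b.map (algebraMap ℤ_[l] ℚ_[l])) : a = b := by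
  ext i j
  have := congrFun (congrFun h i) j
  exact Subtype.ext this

theorem unq_div {a : Matrix (Fin n) (Fin n) ℤ_[l]} (h : a.map (PadicInt.toZMod (p := l)) = 0) :
    ∃ b : Matrix (Fin n) (Fin n) ℤ_[l], a = (l : ℤ_[l]) • b := by
  have : ∀ i j, ∃ b : ℤ_[l], a i j = l * b := by
    intro i j
    have h1 := congrFun (congrFun h i) j
    simp only [Matrix.map_apply, Matrix.zero_apply] at h1
    have h2 : a i j ∈ RingHom.ker (PadicInt.toZMod (p := l)) := h1
    rw [PadicInt.ker_toZMod, PadicInt.maximalIdeal_eq_span_p, Ideal.mem_span_singleton] at h2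
    exact h2
  choose b hb using this
  exact ⟨fun i j => b i j, by ext i j; exact hb i j⟩

theorem unq_core (r s : G →* Matrix.GeneralLinearGroup (Fin n) ℤ_[l]) (hr : Cpl r) :
    ∀ (N : ℕ) (g : Matrix (Fin n) (Fin n) ℤ_[l]), g.det ≠ 0 → g.det.valuation ≤ N →
      (∀ x, g * (s x : Matrix (Fin n) (Fin n) ℤ_[l]) = (r x : Matrix (Fin n) (Fin n) ℤ_[l]) * g) →
      ∃ (a : Matrix (Fin n) (Fin n) ℤ_[l]) (u : Matrix.GeneralLinearGroup (Fin n) ℤ_[l]),
        a.det ≠ 0 ∧
        (∀ x, a * (r x : Matrix (Fin n) (Fin n) ℤ_[l]) =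
          (r x : Matrix (Fin n) (Fin n) ℤ_[l]) * a) ∧
        g = a * (u : Matrix (Fin n) (Fin n) ℤ_[l]) := by
  intro N
  induction N with
  | zero =>
    intro g hg hv hgs
    have hu : IsUnit g.det := by
      rw [PadicInt.isUnit_iff, PadicInt.norm_eq_zpow_neg_valuation hg]
      have : g.det.valuation = 0 := by omega
      rw [this]; simp
    refine ⟨1, Matrix.GeneralLinearGroup.mk'' g hu, by simp, fun x => by simp, ?_⟩
    rw [one_mul]
    rfl
  | succ N ih =>
    intro g hg hv hgs
    by_cases hu : IsUnit g.det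
    · refine ⟨1, Matrix.GeneralLinearGroup.mk'' g hu, by simp, fun x => by simp, ?_⟩
      rw [one_mul]
      rfl
    have hl0 : (l : ℤ_[l]) ≠ 0 := by exact_mod_cast (Fact.out : l.Prime).ne_zero
    have hnu : ∀ d : ℤ_[l], ¬ IsUnit d ↔ PadicInt.toZMod d = 0 := by
      intro d
      have : PadicInt.toZMod d = 0 ↔ d ∈ RingHom.ker (PadicInt.toZMod (p := l)) := Iff.rfl
      rw [this, PadicInt.ker_toZMod]
      rfl
    set gb := g.map (PadicInt.toZMod (p := l)) with hgb
    have hmap : ∀ y z : Matrix (Fin n) (Fin n) ℤ_[l], (y * z).map (PadicInt.toZMod (p := l)) =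
        y.map (PadicInt.toZMod (p := l)) * z.map (PadicInt.toZMod (p := l)) := by
      intro y z; exact Matrix.map_mul
    have hdet : ∀ y : Matrix (Fin n) (Fin n) ℤ_[l], (y.map (PadicInt.toZMod (p := l))).det =
        PadicInt.toZMod y.det := by
      intro y
      exact (RingHom.map_det (PadicInt.toZMod (p := l)) y).symm
    have hgb0 : gb.det = 0 := by
      rw [hgb, hdet]; exact (hnu _).mp hu
    obtain ⟨m, B, E, C, F', hmn, hBE, hBF, hCB⟩ := unq_rank gb hgb0
    have hres : ∀ x, res r x = (r x : Matrix (Fin n) (Fin n) ℤ_[l]).map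
        (PadicInt.toZMod (p := l)) := fun x => rfl
    have hres' : ∀ x, res s x = (s x : Matrix (Fin n) (Fin n) ℤ_[l]).map
        (PadicInt.toZMod (p := l)) := fun x => rfl
    have hint : ∀ x, res r x * gb = gb * res s x := by
      intro x
      rw [hres, hres', hgb, ← hmap, ← hmap, hgs x]
    have hsub : IsSub (res r) B (fun x => E * res s x * F') := by
      refine ⟨⟨C, hCB⟩, fun x => ?_⟩
      calc res r x * B = res r x * (gb * F') := by rw [← hBF]
        _ = (res r x * gb) * F' := by rw [Matrix.mul_assoc]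
        _ = gb * res s x * F' := by rw [hint]
        _ = B * E * res s x * F' := by rw [← hBE]
        _ = B * (E * res s x * F') := by simp only [Matrix.mul_assoc]
    obtain ⟨e, D, hee, her, heB, hDB⟩ := hr m B _ hsub
    have heg : e.map (PadicInt.toZMod (p := l)) * gb = gb := by
      rw [heB, hBE]
      calc B * D * (B * E) = B * (D * B) * E := by simp only [Matrix.mul_assoc]
        _ = B * E := by rw [hDB, Matrix.mul_one]
    set α : Matrix (Fin n) (Fin n) ℤ_[l] := e + (l : ℤ_[l]) • (1 - e) with hα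
    set α' : Matrix (Fin n) (Fin n) ℤ_[l] := (l : ℤ_[l]) • e + (1 - e) with hα'
    have he0 : e * (1 - e) = 0 := by rw [mul_sub, mul_one, hee, sub_self]
    have he1 : (1 - e) * e = 0 := by rw [sub_mul, one_mul, hee, sub_self]
    have he2 : (1 - e) * (1 - e) = 1 - e := by
      rw [sub_mul, one_mul, he0, sub_zero]
    have hαα : α * α' = (l : ℤ_[l]) • (1 : Matrix (Fin n) (Fin n) ℤ_[l]) := by
      rw [hα, hα', add_mul, mul_add, mul_add]
      simp only [Matrix.smul_mul, Matrix.mul_smul, hee, he0, he1, he2, smul_zero, zero_add,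
        add_zero]
      rw [← smul_add]
      congr 1
      abel
    have hαr : ∀ x, α * (r x : Matrix (Fin n) (Fin n) ℤ_[l]) = (r x : Matrix _ _ _) * α := by
      intro x
      rw [hα, add_mul, mul_add, Matrix.smul_mul, Matrix.mul_smul, sub_mul, mul_sub, one_mul,
        mul_one, her x]
    have hαr' : ∀ x, α' * (r x : Matrix (Fin n) (Fin n) ℤ_[l]) = (r x : Matrix _ _ _) * α' := by
      intro x
      rw [hα', add_mul, mul_add, Matrix.smul_mul, Matrix.mul_smul, sub_mul, mul_sub, one_mul,
        mul_one, her x]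
    have hαg : (α' * g).map (PadicInt.toZMod (p := l)) = 0 := by
      have h1 : α' * g = (l : ℤ_[l]) • (e * g) + (g - e * g) := by
        rw [hα', add_mul, Matrix.smul_mul, sub_mul, one_mul]
      have h2 : ((l : ℤ_[l]) • (e * g)).map (PadicInt.toZMod (p := l)) = 0 := by
        ext i j
        simp [Matrix.map_apply]
      have h3 : (g - e * g).map (PadicInt.toZMod (p := l)) = 0 := by
        rw [Matrix.map_sub _ (by intro a b; simp), hmap, ← hgb, heg, sub_self]
      rw [h1, Matrix.map_add _ (by intro a b; simp), h2, h3, add_zero]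
    obtain ⟨g1, hg1⟩ := unq_div hαg
    have hsm : ∀ {y z : Matrix (Fin n) (Fin n) ℤ_[l]}, (l : ℤ_[l]) • y = (l : ℤ_[l]) • z →
        y = z := by
      intro y z hyz
      ext i j
      have := congrFun (congrFun hyz i) j
      simp only [Matrix.smul_apply, smul_eq_mul] at this
      rw [mul_left_cancel₀ hl0 this]
    have hgα : g = α * g1 := by
      apply hsm
      rw [← Matrix.mul_smul, ← hg1, ← Matrix.mul_assoc, hαα, Matrix.smul_mul, one_mul]
    have hdα : g.det = α.det * g1.det := by rw [hgα, Matrix.det_mul]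
    have hα0 : α.det ≠ 0 := by
      intro h0; rw [hdα, h0, zero_mul] at hg; exact hg rfl
    have hg10 : g1.det ≠ 0 := by
      intro h0; rw [hdα, h0, mul_zero] at hg; exact hg rfl
    have hαnu : ¬ IsUnit α.det := by
      rw [hnu, ← hdet]
      have : α.map (PadicInt.toZMod (p := l)) = B * D := by
        rw [hα, Matrix.map_add _ (by intro a b; simp), heB]
        have : ((l : ℤ_[l]) • (1 - e)).map (PadicInt.toZMod (p := l)) = 0 := by
          ext i j
          simp [Matrix.map_apply]
        rw [this, add_zero]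
      rw [this]
      exact unq_det hmn B D
    have hval : g1.det.valuation ≤ N := by
      have h1 : g.det.valuation = α.det.valuation + g1.det.valuation := by
        rw [hdα, PadicInt.valuation_mul hα0 hg10]
      have h2 : α.det.valuation ≠ 0 := by
        intro h0
        apply hαnu
        rw [PadicInt.isUnit_iff, PadicInt.norm_eq_zpow_neg_valuation hα0, h0]
        simp
      omega
    have hg1s : ∀ x, g1 * (s x : Matrix (Fin n) (Fin n) ℤ_[l]) =
        (r x : Matrix (Fin n) (Fin n) ℤ_[l]) * g1 := by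
      intro x
      apply hsm
      rw [← Matrix.smul_mul, ← Matrix.mul_smul, ← hg1, Matrix.mul_assoc, hgs, ← Matrix.mul_assoc,
        hαr', Matrix.mul_assoc]
    obtain ⟨a, u, ha0, har, hau⟩ := ih g1 hg10 hval hg1s
    refine ⟨α * a, u, ?_, fun x => ?_, ?_⟩
    · rw [Matrix.det_mul]; exact mul_ne_zero hα0 ha0
    · rw [Matrix.mul_assoc, har, ← Matrix.mul_assoc, hαr, Matrix.mul_assoc]
    · rw [hgα, Matrix.mul_assoc, ← hau]

/-- a multiple of a matrix over `ℚ_l` is integral -/
theorem unq_scale (g : Matrix (Fin n) (Fin n) ℚ_[l]) :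
    ∃ (k : ℕ) (z : Matrix (Fin n) (Fin n) ℤ_[l]),
      z.map (algebraMap ℤ_[l] ℚ_[l]) = ((l : ℚ_[l]) ^ k) • g := by
  have h1 : ∀ x : ℚ_[l], ∃ k : ℕ, ∀ k', k ≤ k' → ‖(l : ℚ_[l]) ^ k' * x‖ ≤ 1 := by
    intro x
    by_cases hx : x = 0
    · exact ⟨0, fun k' _ => by simp [hx]⟩
    refine ⟨(-(x.valuation)).toNat, fun k' hk' => ?_⟩
    rw [norm_mul, norm_pow, Padic.norm_p, Padic.norm_eq_zpow_neg_valuation hx, inv_pow,
      ← zpow_natCast, ← zpow_neg, ← zpow_add₀ (by exact_mod_cast (Fact.out : l.Prime).ne_zero)]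
    apply zpow_le_one_of_nonpos₀
    · exact_mod_cast (Fact.out : l.Prime).one_lt.le
    · omega
  choose k hk using h1
  set K : ℕ := ∑ i, ∑ j, k (g i j) with hK
  have hle : ∀ i j, k (g i j) ≤ K := by
    intro i j
    calc k (g i j) ≤ ∑ j, k (g i j) :=
          Finset.single_le_sum (f := fun j => k (g i j)) (fun _ _ => Nat.zero_le _)
            (Finset.mem_univ j)
      _ ≤ K := Finset.single_le_sum (f := fun i => ∑ j, k (g i j)) (fun _ _ => Nat.zero_le _)
            (Finset.mem_univ i)
  refine ⟨K, fun i j => ⟨(l : ℚ_[l]) ^ K * g i j, hk _ _ (hle i j)⟩, ?_⟩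
  ext i j
  rfl

end

/-- UNQ -/
theorem st_UNQ : ST_UNQ := by
  intro G _ n l _ r hr s g hgs
  have hl0 : (l : ℚ_[l]) ≠ 0 := by exact_mod_cast (Fact.out : l.Prime).ne_zero
  obtain ⟨k, z, hz⟩ := unq_scale (g : Matrix (Fin n) (Fin n) ℚ_[l])
  have hpk : ((l : ℚ_[l]) ^ k) ≠ 0 := pow_ne_zero _ hl0
  have hdetm : ∀ y : Matrix (Fin n) (Fin n) ℤ_[l], (y.map (algebraMap ℤ_[l] ℚ_[l])).det =
      algebraMap ℤ_[l] ℚ_[l] y.det := by
    intro y
    exact (RingHom.map_det (algebraMap ℤ_[l] ℚ_[l]) y).symm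
  have hgdet : (g : Matrix (Fin n) (Fin n) ℚ_[l]).det ≠ 0 :=
    ((Matrix.isUnit_iff_isUnit_det _).mp g.isUnit).ne_zero
  have hz0 : z.det ≠ 0 := by
    intro h0
    have := hdetm z
    rw [hz, Matrix.det_smul, h0, map_zero] at this
    exact (mul_ne_zero (pow_ne_zero _ hpk) hgdet) this
  have hrat : ∀ (t : G →* Matrix.GeneralLinearGroup (Fin n) ℤ_[l]) x, rat t x =
      (t x : Matrix (Fin n) (Fin n) ℤ_[l]).map (algebraMap ℤ_[l] ℚ_[l]) := fun t x => rfl
  have hzs : ∀ x, z * (s x : Matrix (Fin n) (Fin n) ℤ_[l]) =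
      (r x : Matrix (Fin n) (Fin n) ℤ_[l]) * z := by
    intro x
    apply unq_map_inj
    rw [Matrix.map_mul, Matrix.map_mul, hz, ← hrat, ← hrat, Matrix.smul_mul, Matrix.mul_smul,
      hgs]
  obtain ⟨a, u, ha0, har, hau⟩ := unq_core r s hr _ z hz0 le_rfl hzs
  have haQ : IsUnit (((l : ℚ_[l]) ^ k)⁻¹ • a.map (algebraMap ℤ_[l] ℚ_[l])).det := by
    rw [Matrix.det_smul, hdetm]
    refine isUnit_iff_ne_zero.mpr (mul_ne_zero (pow_ne_zero _ (inv_ne_zero hpk)) ?_)
    simpa using ha0
  refine ⟨Matrix.GeneralLinearGroup.mk'' _ haQ, u, fun x => ?_, ?_⟩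
  · show (((l : ℚ_[l]) ^ k)⁻¹ • a.map (algebraMap ℤ_[l] ℚ_[l])) * rat r x =
      rat r x * (((l : ℚ_[l]) ^ k)⁻¹ • a.map (algebraMap ℤ_[l] ℚ_[l]))
    rw [Matrix.smul_mul, Matrix.mul_smul, hrat, ← Matrix.map_mul, ← Matrix.map_mul, har]
  · show (g : Matrix (Fin n) (Fin n) ℚ_[l]) =
      (((l : ℚ_[l]) ^ k)⁻¹ • a.map (algebraMap ℤ_[l] ℚ_[l])) *
        (u : Matrix (Fin n) (Fin n) ℤ_[l]).map (algebraMap ℤ_[l] ℚ_[l])
    rw [Matrix.smul_mul, ← Matrix.map_mul, ← hau, hz, smul_smul, inv_mul_cancel₀ hpk, one_smul]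

end Pool.Agent.Helper61.REC
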